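import Pool.Agent.helper48.AN.SpecD

/-!
# Project NPT (MP_8f32d0_ag): the generic Newton polygon of the p-rank 0 stratum of `M_g` is `(1/g, (g-1)/g)`

THEOREM. Every curve of genus `g ≥ 3` and `p`-rank 0 is the reduction of a curve over `k((t))` with `p`-rank 0, `a`-number 1 and
smallest Newton slope `≤ 1/g` (so the slopes are `1/g` and `(g-1)/g`).

Notation (project an, `helper48/AN/SpecA.lean`): `LS R` Laurent series in `s`, `PS R` power series, `A = AA γ a` the functions on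
`C - P`, `Ω = OmA γ a`, `dd`, `res`, `cD`, `e_j = mono (-γ j) 1`, `H = HW p γ a`, so `e_j^p = ∑_i H_ij e_i` modulo `A + PS`
(KE). All statements of project an are proved (`helper48/AN/Assemble.lean`); a row may take any `XX_stmt` of project an or of this
file as a hypothesis.

Rules: file `Pool/Agent/<seat>/NPT/XXX.lean`, `import Pool.Agent.helper50.NPT.Spec1` (blocks 1-3; light) or `Spec2` (blocks 4, 5; imports project au), `namespace NPT`, `open AN`,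
`theorem XXX (h : YY_stmt) ... : XXX_stmt`, auxiliary lemmas prefixed `XXX_`.

IDEA. `f₀ = ∑ x_j e_j`, `H x^(p) = 0`, `f₀^p = g₀ + o₀`, `w = dg₀ = -do₀` (the exact regular differential). `P2(x,y) = ((x+y)^p - x^p - y^p)/p`,
`z = P2(g₀, o₀)` (Frobenius of the Teichmueller representative `[f₀]` in `H¹(C, W₂ O)` is `V z`). `om2 = g₀^(p-1) w + d al` is the regular
differential with Cartier image `w`. `tau = res (z om2) + rho^p`. (1) `D tau = res (θ_D om2²)` for every derivation `D` of the base, with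
Kodaira-Spencer class `θ_D` (DER). (2) If `tau = 0` at the generic point of a component of the `p`-rank 0 locus, then `om2²/w` is regular (TFG) and, by the
argument of row TG of project an, `om2/w` is constant (TGG), a contradiction (TAU). (3) `tau ≠ 0` implies that the smallest slope of
`H¹(C, W O) = W(LS)/(W(A) + W(PS))` is `≤ 1/g` (KEY, LIN, ABS, SLO).
-/

namespace NPT

open scoped Classical
open AN

noncomputable section

/-! ## Definitions -/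

/-- `((x+y)^p - x^p - y^p)/p` -/
def P2 (p : ℕ) {B : Type} [CommRing B] (x y : B) : B :=
  ∑ i ∈ Finset.Ico 1 p, ((p.choose i / p : ℕ) : B) * (x ^ i * y ^ (p - i))

/-- `((x+y+z)^p - x^p - y^p - z^p)/p` -/
def P3 (p : ℕ) {B : Type} [CommRing B] (x y z : B) : B := P2 p x y + P2 p (x + y) z

/-- `∑_j x_j e_j` -/
def ee {R : Type} [CommRing R] {g : ℕ} (γ : Fin g → ℕ) (x : Fin g → R) : LS R :=
  ∑ j, mono (-(γ j : ℤ)) (x j)

/-- `∑_j c_j e_j^p` -/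
def eP (p : ℕ) {R : Type} [CommRing R] {g : ℕ} (γ : Fin g → ℕ) (c : Fin g → R) : LS R :=
  ∑ j, LS.C (c j) * (mono (-(γ j : ℤ)) (1 : R)) ^ p

/-- the data of the idea above: `x`, `c`, `c'` with `H x^(p) = 0`, `H c` = the class of `z`, `H c' = x` -/
structure Cert (p : ℕ) {R : Type} [CommRing R] {g : ℕ} (γ : Fin g → ℕ) (a : ℕ → LS R) where
  x : Fin g → R
  c : Fin g → R
  c' : Fin g → R
  g0 : LS R
  o0 : LS R
  al : LS R
  o : LS R
  a1 : LS R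
  o1 : LS R
  hg0 : g0 ∈ AA γ a
  ho0 : o0 ∈ PS R
  hal : al ∈ AA γ a
  ho : o ∈ PS R
  ha1 : a1 ∈ AA γ a
  ho1 : o1 ∈ PS R
  e1 : ee γ x ^ p = g0 + o0
  e2 : P2 p g0 o0 = eP p γ c + al + o
  e3 : ee γ x = eP p γ c' + a1 + o1

namespace Cert

variable {p : ℕ} {R : Type} [CommRing R] {g : ℕ} {γ : Fin g → ℕ} {a : ℕ → LS R}

/-- the exact regular differential -/
def w (T : Cert p γ a) : LS R := dd T.g0

/-- the second regular differential -/
def om2 (T : Cert p γ a) : LS R := T.g0 ^ (p - 1) * dd T.g0 + dd T.al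

def tau0 (T : Cert p γ a) : R := res (P2 p T.g0 T.o0 * T.om2)

def rho (T : Cert p γ a) : R := res (P3 p (ee γ T.x) (-T.a1) (-T.o1) * T.w)

def tau (T : Cert p γ a) : R := T.tau0 + T.rho ^ p

end Cert

/-- the `p`-linear map `v ↦ H v^(p)` -/
def Fr (p : ℕ) {R : Type} [CommRing R] {g : ℕ} (H : Matrix (Fin g) (Fin g) R) (v : Fin g → R) : Fin g → R :=
  H.mulVec (frV p v)

/-- the Witt vectors with all components in `S` (`S` a subring: then this set is already a subgroup) -/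
def Wc (p : ℕ) [Fact p.Prime] {B : Type} [CommRing B] (S : Set B) : AddSubgroup (WittVector p B) :=
  AddSubgroup.closure {X | ∀ n, X.coeff n ∈ S}

/-- `W(A) + W(PS)`; `H¹(C, W O) = W(LS R) / N0` -/
def N0 (p : ℕ) [Fact p.Prime] {R : Type} [CommRing R] {g : ℕ} (γ : Fin g → ℕ) (a : ℕ → LS R) :
    AddSubgroup (WittVector p (LS R)) :=
  Wc p (AA γ a : Set (LS R)) ⊔ Wc p (PS R : Set (LS R))

/-- `F^n H¹(C, W O) ⊆ p^m H¹(C, W O)` for one-point data -/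
def LDiv (p : ℕ) [Fact p.Prime] {R : Type} [CommRing R] {g : ℕ} (γ : Fin g → ℕ) (a : ℕ → LS R) (n m : ℕ) : Prop :=
  ∀ X : WittVector p (LS R), ∃ Y : WittVector p (LS R),
    (WittVector.frobenius)^[n] X - (p : WittVector p (LS R)) ^ m * Y ∈ N0 p γ a

/-! ## Block 1: polynomials, differentials, derivations -/

/-- PPM: the polynomials `P2`. (1) homomorphisms; (2) homogeneity; (3) derivations: `p.choose i / p * i = (p-1).choose (i-1)` (as `p ∣ p.choose i` and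
`i (p.choose i) = p ((p-1).choose (i-1))`) and `p.choose i / p * (p - i) = (p-1).choose i`, so for an additive `δ` with the product rule
`δ (P2 x y) = (∑_{0<i<p} (p-1).choose (i-1) x^(i-1) y^(p-i)) δ x + (∑_{0<i<p} (p-1).choose i x^i y^(p-1-i)) δ y` and the sums are `(x+y)^(p-1) - x^(p-1)`, `(x+y)^(p-1) - y^(p-1)`. -/
def PPM_stmt : Prop :=
  (∀ (p : ℕ) (B B' : Type) [CommRing B] [CommRing B'] (φ : B →+* B') (x y : B), φ (P2 p x y) = P2 p (φ x) (φ y)) ∧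
  (∀ (p : ℕ) (B : Type) [CommRing B] (c x y : B), P2 p (c * x) (c * y) = c ^ p * P2 p x y) ∧
  (∀ (p : ℕ) [Fact p.Prime] (B : Type) [CommRing B] (δ : B →+ B), (∀ u v, δ (u * v) = δ u * v + u * δ v) →
    ∀ x y : B, δ (P2 p x y) = (x + y) ^ (p - 1) * (δ x + δ y) - x ^ (p - 1) * δ x - y ^ (p - 1) * δ y)

/-- ZWR: `res (z w) = 0`.
Proof: `c = f₀^p`, `dd c = 0`, `o₀ = c - g₀`, so `P2 g₀ o₀ * dd g₀` is a combination with integer coefficients of the `c^(p-k) g₀^k dd g₀`, `1 ≤ k ≤ p` (binomial formula for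
`(c - g₀)^(p-i)`). If `p ∤ k+1` this is `dd` of `c^(p-k) g₀^(k+1) / (k+1)` (the integer `k+1` is invertible in `R`), residue 0. For `k = p - 1`: `res (f₀^p g₀^(p-1) dd g₀) = (res (f₀ dd g₀))^p` by CB (`b = g₀`) and CC.
`res (f₀ dd g₀) = res (φ dd g₀) + res (a₁ dd g₀) + res (o₁ dd g₀) = 0`: `φ dd g₀ = dd (φ g₀)`; KB; `o₁ dd g₀ ∈ PS` since `dd g₀ = - dd o₀`. -/
def ZWR_stmt : Prop := ∀ (p : ℕ) [Fact p.Prime] (R : Type) [CommRing R] [CharP R p] (g : ℕ) (γ : Fin g → ℕ)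
  (a : ℕ → LS R), IsK γ a → ∀ f₀ g₀ o₀ φ a₁ o₁ : LS R, g₀ ∈ AA γ a → o₀ ∈ PS R → a₁ ∈ AA γ a → o₁ ∈ PS R →
    f₀ ^ p = g₀ + o₀ → f₀ = φ + a₁ + o₁ → dd φ = 0 →
    res (f₀ * dd g₀) = 0 ∧ res (P2 p g₀ o₀ * dd g₀) = 0

/-- OMT: the two differentials.
Proof: `dd (ee γ x ^ p) = 0`, so `dd o0 = -w`, `w ∈ PS`; `w ∈ OmA` (KB). Third line: `dd z = (o0^(p-1) - g0^(p-1)) w` (PPM for `δ = dd`, `dd (g0 + o0) = 0`) and `dd z = dd al + dd o` (`dd (eP p γ c) = 0`), so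
`om2 = o0^(p-1) w - dd o ∈ PS`; `om2 ∈ OmA` (KB: `OmA` is a module over `A`, `g0^(p-1) ∈ A`). `res (f^p w) = res (dd (f^p g0)) = 0`. CB for `b = g0` and CC: `g0^(p-1) w + dd al = w^p s^(p-1) + dd (..)`.
`res (z w) = res ((eP c) w) + res (al w) + res (o w) = 0`. -/
def OMT_stmt : Prop := ∀ (p : ℕ) [Fact p.Prime] (R : Type) [CommRing R] [CharP R p] (g : ℕ) (γ : Fin g → ℕ)
  (a : ℕ → LS R), IsK γ a → ∀ T : Cert p γ a,
    T.w ∈ OmA γ a ∧ T.w ∈ PS R ∧ dd T.o0 = -T.w ∧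
    dd (P2 p T.g0 T.o0) = (T.o0 ^ (p - 1) - T.g0 ^ (p - 1)) * T.w ∧
    T.om2 ∈ OmA γ a ∧ T.om2 ∈ PS R ∧ T.om2 = T.o0 ^ (p - 1) * T.w - dd T.o ∧
    (∀ r : LS R, dd r = 0 → res (r * T.w) = 0) ∧
    (∀ f : LS R, res (f ^ p * T.w) = 0) ∧ (∀ f : LS R, res (f ^ p * T.om2) = (res (f * T.w)) ^ p) ∧
    res (P2 p T.g0 T.o0 * T.w) = 0

/-- DER: THE DERIVATIVE OF `tau`: `D tau = res (θ om2²)`.
Proof: `D (rho^p) = 0`, so `D tau = D tau0 = res (cD D (z om2)) = res (cD D z * om2) + res (z * cD D om2)`, `z = P2 g0 o0`. Write `E f = cD D f + θ dd f` (`E A ⊆ A`, TA) and `L ω = cD D ω + dd (θ ω)`, so `L (f dh) = E(f) dh + f d(E h)`.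
(a) `L om2 = dd κ`, `κ = g0^(p-1) E(g0) + E(al) ∈ A` (`L (g0^(p-1) dd g0) = dd (g0^(p-1) E g0)`, `L (dd al) = dd (E al)`). (b) `cD D z + θ dd z = (o0^(p-1) - g0^(p-1)) E(g0)`: PPM for `δ = cD D` and `D (g0+o0) = 0`, `dd (g0+o0) = 0` (`g0+o0` is a `p`-th power).
(c) `res (z cD D om2) = res (z dd κ) - res (z dd (θ om2)) = - res (κ dd z) + res (θ om2 dd z)`. So
`D tau0 = res ((o0^(p-1) - g0^(p-1)) E(g0) om2) - res (κ (o0^(p-1) - g0^(p-1)) w) = res (o0^(p-1) E(g0) om2) - res (κ o0^(p-1) w)` (the terms with `g0^(p-1)` are in `A Ω`, KB).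
(d) `E(g0) = - cD D o0 + θ w` (as `cD D g0 = - cD D o0`), `res (o0^(p-1) cD D o0 om2) = 0` (all in `PS`), `o0^(p-1) w = om2 + dd o` (OMT): `D tau0 = res (θ om2 om2) + res (θ om2 dd o) - res (κ om2) - res (κ dd o)`, `res (κ om2) = 0` (KB).
(e) `res (θ om2 dd o) - res (κ dd o) = - res (o dd (θ om2)) + res (o dd κ) = res (o cD D om2) = 0` (`o`, `cD D om2 ∈ PS`). -/
def DER_stmt : Prop := ∀ (p : ℕ) [Fact p.Prime] (R : Type) [CommRing R] [CharP R p] (g : ℕ) (γ : Fin g → ℕ)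
  (a : ℕ → LS R), IsK γ a → ∀ (D : Derivation ℤ R R) (θ : LS R),
    (∀ r, ¬ Gp γ r → cD D (a r) + θ * dd (a r) ∈ AA γ a) → ∀ T : Cert p γ a,
      D T.tau = res (θ * (T.om2 * T.om2))

/-! ## Block 2: the generic point -/

/-- TFG: variant of TF of project an (`helper19/AN/TF.lean`), same proof with `u` instead of `dd α`, `dd α'`; the hypothesis replaces `r1`. -/
def TFG_stmt : Prop := ∀ (p : ℕ) [Fact p.Prime] (K : Type) [Field K] [CharP K p] (g N : ℕ)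
  (γ : Fin g → ℕ) (a : ℕ → LS K) (ν : Fin N → ℕ) (τ : ℕ → LS K) (θ : Fin N → LS K)
  (M : Matrix (Fin N) (Fin N) K) (S : Submodule K (Fin N → K)), ATHyp p γ a ν τ θ M S →
  ∀ g₀ ∈ AA γ a, ∀ o₀ ∈ PS K, ∀ f₀ : LS K, f₀ ^ p = g₀ + o₀ → dd g₀ ≠ 0 →
  ∀ u ∈ OmA γ a, u ∈ PS K → (∀ d ∈ S, res ((∑ i, LS.C (d i) * θ i) * (u * u)) = 0) →
    (u * u) / dd g₀ ∈ OmA γ a ∧ (u * u) / dd g₀ ∈ PS K

/-- TGG: variant of TG of project an (`helper43/AN/TG.lean`), same proof with `u` instead of `dd α` (TF is replaced by the hypotheses). -/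
def TGG_stmt : Prop := ∀ (p : ℕ) [Fact p.Prime] (K : Type) [Field K] [CharP K p] (g N : ℕ)
  (γ : Fin g → ℕ) (a : ℕ → LS K) (ν : Fin N → ℕ) (τ : ℕ → LS K) (θ : Fin N → LS K)
  (M : Matrix (Fin N) (Fin N) K) (S : Submodule K (Fin N → K)), ATHyp p γ a ν τ θ M S →
  ∀ g₀ ∈ AA γ a, ∀ o₀ ∈ PS K, ∀ f₀ : LS K, f₀ ^ p = g₀ + o₀ → dd g₀ ≠ 0 →
  ∀ u ∈ OmA γ a, u ∈ PS K → (u * u) / dd g₀ ∈ OmA γ a → (u * u) / dd g₀ ∈ PS K →
    ∃ c : K, u = LS.C c * dd g₀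

/-- TAU: `tau ≠ 0` at the generic point.
Proof: `w ≠ 0`: otherwise CE for `v = frV p x` (`∑ v_j e_j^p = ee γ x ^ p = g0 + o0`, `dd g0 = 0`) gives `x = 0`. Suppose `tau = 0`. For `d ∈ S` take `D` as in `ATHyp.der`: `0 = D tau = res (θ_d om2²)` (DER). TFG and TGG (`u = om2`, OMT): `om2 = c w`.
For all `f`: `(res (f w))^p = res (f^p om2) = c res (f^p w) = 0` (OMT), so `res (f w) = 0` for all `f`, so `w = 0`, a contradiction. -/
def TAU_stmt : Prop := ∀ (p : ℕ) [Fact p.Prime] (K : Type) [Field K] [CharP K p] (g N : ℕ)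
  (γ : Fin g → ℕ) (a : ℕ → LS K) (ν : Fin N → ℕ) (τ : ℕ → LS K) (θ : Fin N → LS K)
  (M : Matrix (Fin N) (Fin N) K) (S : Submodule K (Fin N → K)), ATHyp p γ a ν τ θ M S →
    ∀ T : Cert p γ a, T.x ≠ 0 → T.tau ≠ 0

/-- CMP: base change of the data (`mp φ` is a ring homomorphism commuting with `dd`, `res`; BC: `mp φ` maps `AA` into `AA`; `mp_mem_GE`, `mp_mono`, `mp_C`; PPM). -/
def CMP_stmt : Prop := ∀ (p : ℕ) (R R' : Type) [CommRing R] [CommRing R'] (φ : R →+* R') (g : ℕ)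
  (γ : Fin g → ℕ) (a : ℕ → LS R), IsK γ a → ∀ T : Cert p γ a,
    ∃ T' : Cert p γ (fun r => mp φ (a r)), T'.tau = φ T.tau ∧ ∀ j, T'.x j = φ (T.x j)

/-- CEX: existence of the data over a domain.
Proof: `L = FractionRing R`; the rank over `L` is that over `K` (PG, third part, both kernels are 0). `g ≥ 2`, so `H ≠ 0` over `L` and there is a largest `n ≥ 1` with `MN p H n ≠ 0` (over `R` and `L`, PG first part; `MN p H g = 0`). `x` = a nonzero column of `MN p H n = H * frM p (MN p H (n-1))`: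
`x = H c'`, `H x^(p)` = a column of `MN p H (n+1) = 0`; all over `R`. (KE) `e_j^p = ∑_i H_ij e_i + α_j + o_j`: `(ee x)^p = ∑ x_j^p e_j^p = ee (H x^(p)) + ∑ x_j^p α_j + ∑ x_j^p o_j = g₀ + o₀`; `ee x = ee (H c') = eP c' + a₁ + o₁`, `a₁ = - ∑ c'_j α_j`.
`z = P2 g₀ o₀ = α + ee v + o` (KA). Claim: over `L`, `v = H b` for some `b`. The column space of `H` over `L` has dimension `g - 1` (it is not everything since `H x^(p) = 0`) and is contained in the annihilator of `y ≠ 0`, `y_i = res (e_i w)`,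
`w = dd g₀` (`∑_i H_ij y_i = res (e_j^p w) = 0`; `w ≠ 0` over `L` by CE (BC: base change to `L`), and `y = 0` would give `w = 0`: `w ∈ Ω ∩ PS`, KA + KB). `∑ v_i y_i = res (z w) = 0` (ZWR). So `v = H b`, `b ∈ L^g`. Choose `0 ≠ d ∈ R` with `d b ∈ R^g` and replace `x`, `c'`, `a₁`, `o₁` by `d` times, `g₀`, `o₀` by `d^p` times,
`z`, `v`, `α`, `o` by `d^(p²)` times (PPM (2)), `c = d^(p²-1) (d b)`. -/
def CEX_stmt : Prop := ∀ (p : ℕ) [Fact p.Prime] (R : Type) [CommRing R] [IsDomain R] [CharP R p] (g : ℕ)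
  (γ : Fin g → ℕ) (a : ℕ → LS R), IsK γ a → 2 ≤ g → MN p (HW p γ a) g = 0 →
  ∀ (K : Type) [Field K] (ψ : R →+* K), Function.Injective ψ → g ≤ ((HW p γ a).map ψ).rank + 1 →
    ∃ T : Cert p γ a, T.x ≠ 0

/-- FAM: the one-parameter family, with `tau ≠ 0`. Variant of EA of project an (`helper98/AN/EA.lean`).
Proof: as in EA: `A₀` over `B = BB k N`, `q`, `K`, `ψ`, `S`, `ATHyp`, TH: rank `≥ g - 1` over `K`. `R = B ⧸ q`, `π : B → R`, `ψ̄ : R → K` injective with `ψ = ψ̄ ∘ π`. BC: one-point data `mp π ∘ A₀` over `R`, with `MN = 0`. CEX: `T` over `R`, `x ≠ 0`. CMP along `ψ̄` and TAU: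
`ψ̄ T.tau ≠ 0`, so `T.tau ≠ 0`; `T.tau = π t`, `t ∉ q`. EA2: `μ ∉ q` (for `ψ`). PO for `μ t ∉ q`: `Φ : B → k[[X]]` kills `q`, `Φ μ ≠ 0`, `Φ t ≠ 0`; it induces `Φ̄ : R → k[[X]]`; CMP along `Φ̄` (`mp Φ̄ (mp π f) = mp Φ f`). -/
def FAM_stmt : Prop := ∀ (p : ℕ) [Fact p.Prime] (k : Type) [Field k] [IsAlgClosed k] [CharP k p] (N g : ℕ)
  (γ : Fin g → ℕ) (a : ℕ → LS k) (ν : Fin N → ℕ) (τ : ℕ → LS k), 2 ≤ g → IsK γ a → IsT γ a ν τ →
  PNil p (HW p γ a) → ∃ A : ℕ → LS (PowerSeries k), IsK γ A ∧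
    (∀ r, ¬ Gp γ r → mp (PowerSeries.constantCoeff (R := k)) (A r) = a r) ∧
    MN p (HW p γ A) g = 0 ∧
    (∀ (Ω : Type) [Field Ω] (φ : PowerSeries k →+* Ω), Function.Injective φ →
      g ≤ ((HW p γ A).map φ).rank + 1) ∧
    ∃ T : Cert p γ A, T.tau ≠ 0

/-! ## Block 3: the slope over an algebraically closed field -/

/-- ABS: the filtration argument. (PURE ALGEBRA)
Proof: (i) `n = 0`: if `m ≥ 1` and `u = p^m y` then `u = F (V ..) = F y'`, against the fourth hypothesis with `i = 0`. Let `n ≥ 1`. (ii) `Fil r` = the subgroup generated by the `F^a V^b x`, `a + (g-1) b ≥ r`; `F Fil r ⊆ Fil (r+1)`; decreasing. (iii) For `r = (g-1) j + i`, `1 ≤ i ≤ g - 1`, every element of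
`Fil r` is `V^j F^i y + V^(j+1) z`: for a generator `F^a V^b x`: clear if `b ≥ j + 1`, or if `b = j` (then `a ≥ i`); if `b < j` then `a ≥ g` and by the fifth hypothesis `F^a V^b x = F^(a-g) V^b F^g x = F^(a-g+1) V^(b+1) y + F^(a-g) V^(b+2) z`, both of weight `≥ r` with larger `b` (`g ≥ 3`): induction on `j - b`.
(iv) For `n = (g-1) j + i`, `1 ≤ i ≤ g - 1`: `F^n u = V^j F^i u' + r`, `u' ∈ U`, `r ∈ Fil (n+1)`: induction on `n`, `n = 1`: `j = 0`, `i = 1`. Step: if `i < g - 1` apply `F`. If `i = g - 1`: `F V^j F^(g-1) u' = V^j F^g u' = V^(j+1) F u'' + V^(j+2) z` (sixth hypothesis) and `V^(j+2) z ∈ Fil (n+2)` as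
`(g-1)(j+2) ≥ (g-1)(j+1) + 2`. (v) Suppose `g m > n`. `F^n u = p^m y = F^m V^m y ∈ Fil (g m) ⊆ Fil (n+1)`, so `V^j F^i u' ∈ Fil (n+1)`; by (iii) for `n + 1` and injectivity of `V`: `F^i u' = F^(i+1) y + V z` (if `i < g - 1`), or `F^(g-1) u' = V (..)` (if `i = g - 1`), against the fourth hypothesis (`y = 0` in the second case). -/
def ABS_stmt : Prop := ∀ (M : Type) [AddCommGroup M] (F V : M →+ M) (p g : ℕ), 3 ≤ g →
  (∀ x, F (V x) = p • x) → (∀ x, V (F x) = p • x) → Function.Injective V →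
  ∀ U : Set M, U.Nonempty → (∀ u ∈ U, ∀ i < g, ∀ y z : M, F^[i] u ≠ F^[i + 1] y + V z) →
  (∀ x : M, ∃ y z : M, F^[g] x = V (F y + V z)) →
  (∀ u ∈ U, ∃ u' ∈ U, ∃ z : M, F^[g] u = V (F u' + V z)) →
  ∀ n m : ℕ, (∀ x : M, ∃ y : M, F^[n] x = p ^ m • y) → g * m ≤ n

/-- LIN: `p`-linear algebra over an algebraically closed field.
Proof: `H` has rank exactly `g - 1` (`H x^(p) = 0`). (4) `ker H` is spanned by `x^(p)`. (1) the range of `H.mulVec` has dimension `g - 1` and is contained in the annihilator of `y`; `p`-th roots exist. `Fr` is additive (`frV` is, characteristic `p`). (2) `Fr^[g] u = MN p H g * (frV p)^[g] u = 0`; so `H (frV p (Fr^[g-1] u)) = 0`, (4),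
and take `p`-th roots. (3) If `Fr^[i] u = Fr^[i+1] v`, put `u' = u - Fr v`: `Fr^[i] u' = 0` and `y ⬝ u' = y ⬝ u ≠ 0`; every `v'` is `c u' + v''` with `y ⬝ v'' = 0`, `v'' = Fr v'''` (1), so the range of `Fr^[i]` is that of `Fr^[i+1]`, so of `Fr^[g]`, so `Fr^[i] = 0`, `MN p H i = 0`. But
`rank (MN p H (n+1)) ≥ rank (MN p H n) - 1` (the kernel of `H` is one-dimensional; `frM` preserves the rank), so `rank (MN p H i) ≥ g - i ≥ 1`. -/
def LIN_stmt : Prop := ∀ (p : ℕ) [Fact p.Prime] (Ω : Type) [Field Ω] [IsAlgClosed Ω] [CharP Ω p] (g : ℕ)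
  (H : Matrix (Fin g) (Fin g) Ω), 0 < g → MN p H g = 0 → g ≤ H.rank + 1 →
  ∀ x y : Fin g → Ω, x ≠ 0 → H.mulVec (frV p x) = 0 → y ≠ 0 → H.transpose.mulVec y = 0 →
    (∀ v : Fin g → Ω, y ⬝ᵥ v = 0 → ∃ u, v = Fr p H u) ∧
    (∀ u : Fin g → Ω, ∃ κ : Ω, (Fr p H)^[g - 1] u = κ • x) ∧
    (∀ u : Fin g → Ω, y ⬝ᵥ u ≠ 0 → ∀ i < g, ∀ v, (Fr p H)^[i] u ≠ (Fr p H)^[i + 1] v) ∧
    (∀ v : Fin g → Ω, H.mulVec v = 0 → ∃ l : Ω, v = l • frV p x)

/-- coordinates of the class of `f` in `H¹(C, O) = LS / (A + PS)` -/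
def crd {R : Type} [CommRing R] {g : ℕ} (γ : Fin g → ℕ) (a : ℕ → LS R) (f : LS R) : Fin g → R :=
  fun i => res (f * om γ a ((γ i : ℤ) - 1))

/-- CRD: coordinates. Proof: KD ((2): fourth part of KD and `res (α om) = 0`, `res (o om) = 0`; (3) third part). (4): `f = α + ee (crd f) + o`, `f^p = α^p + ∑ (crd f)_j^p e_j^p + o^p` (characteristic `p`; `LS` has characteristic `p`), KE and (2), (3). (5): `f = α + ee (crd f) + o`. -/
def CRD_stmt : Prop := ∀ (p : ℕ) [Fact p.Prime] (R : Type) [CommRing R] [CharP R p] (g : ℕ) (γ : Fin g → ℕ)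
  (a : ℕ → LS R), IsK γ a →
    (∀ f h : LS R, crd γ a (f + h) = crd γ a f + crd γ a h) ∧
    (∀ f : LS R, crd γ a f = 0 ↔ ∃ α ∈ AA γ a, ∃ o ∈ PS R, f = α + o) ∧
    (∀ x : Fin g → R, crd γ a (ee γ x) = x) ∧
    (∀ f : LS R, crd γ a (f ^ p) = Fr p (HW p γ a) (crd γ a f)) ∧
    (∀ ω ∈ OmA γ a, ω ∈ PS R → ∀ f : LS R,
      res (f * ω) = (fun i => res (mono (-(γ i : ℤ)) (1 : R) * ω)) ⬝ᵥ crd γ a f)

/-- WTA: Witt vectors modulo `V²`. Proof: (1) the component 1 of `[x] + [y]` is `((x^p + y^p - (x+y)^p)/p` evaluated) `= - P2 x y` (compare the ghost components of the universal case over `ℤ[x, y]`, or `WittVector.map` from a ring without `p`-torsion), so `[x] + [y] + V[P2 x y]` and `[x+y]` have the same components 0 and 1, so their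
difference has components 0 and 1 equal to 0 (`(a-b)` modulo `V²` depends only on the first two components: `WittVector.truncate` is a ring homomorphism) and is in the image of `V²` (`WittVector.eq_iterate_verschiebung`). (2) similar. (3) `add_coeff_zero`, `verschiebung_coeff_zero`. -/
def WTA_stmt : Prop := ∀ (p : ℕ) [Fact p.Prime] (B : Type) [CommRing B],
  (∀ x y : B, ∃ r : WittVector p B, WittVector.teichmuller p (x + y) = WittVector.teichmuller p x +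
    WittVector.teichmuller p y + WittVector.verschiebung (WittVector.teichmuller p (P2 p x y)) +
      WittVector.verschiebung (WittVector.verschiebung r)) ∧
  (∀ X : WittVector p B, ∃ r : WittVector p B, r.coeff 0 = X.coeff 1 ∧
    X = WittVector.teichmuller p (X.coeff 0) + WittVector.verschiebung r) ∧
  (∀ X : WittVector p B, X.coeff 0 = 0 → ∃ r : WittVector p B, X = WittVector.verschiebung r)

/-- WSR: Witt vectors over a subring. Proof: `{X | ∀ n, X.coeff n ∈ S}` is the range of `WittVector.map S.subtype`, so it is closed under `+`, `-`, `*`; `F`: `WittVector.coeff_frobenius_charP`, or `F` commutes with `map` (`WittVector.map_frobenius`). -/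
def WSR_stmt : Prop := ∀ (p : ℕ) [Fact p.Prime] (B : Type) [CommRing B] (S : Subring B),
  (∀ X : WittVector p B, X ∈ Wc p (S : Set B) ↔ ∀ n, X.coeff n ∈ S) ∧
  (∀ X ∈ Wc p (S : Set B), ∀ Y ∈ Wc p (S : Set B), X * Y ∈ Wc p (S : Set B)) ∧
  (∀ X ∈ Wc p (S : Set B), WittVector.frobenius X ∈ Wc p (S : Set B)) ∧
  (∀ X ∈ Wc p (S : Set B), WittVector.verschiebung X ∈ Wc p (S : Set B)) ∧
  (∀ x ∈ S, WittVector.teichmuller p x ∈ Wc p (S : Set B))

/-- WNO: the subgroup `N0`. Proof: `AA γ a` and `PS R` are subrings of `LS R` (KB: products, constants; `PS_mul`), WSR for both. `N0`: sums `α + β`. (5) `V X = α + β`: `α_0 + β_0 = 0`, so `α_0 ∈ A ∩ PS` is a constant `C c` (KB); `α - [C c]` and `β + [C c]` have component 0 equal to 0, so they are `V α'`, `V β'`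
(WTA (3)), `α'`, `β'` with components in `A`, `PS` (`verschiebung_coeff_succ`); `V` is injective. (6) component 0 of `α + β`. (7) `X - [α] - [o]` has component 0 equal to 0. (4) `[C c] ∈ W(A) ∩ W(PS)`. -/
def WNO_stmt : Prop := ∀ (p : ℕ) [Fact p.Prime] (R : Type) [CommRing R] [CharP R p] (g : ℕ) (γ : Fin g → ℕ)
  (a : ℕ → LS R), IsK γ a →
    (∀ f : LS R, f ∈ AA γ a ∨ f ∈ PS R → WittVector.teichmuller p f ∈ N0 p γ a) ∧
    (∀ X ∈ N0 p γ a, WittVector.frobenius X ∈ N0 p γ a) ∧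
    (∀ X ∈ N0 p γ a, WittVector.verschiebung X ∈ N0 p γ a) ∧
    (∀ (c : R), ∀ X ∈ N0 p γ a, WittVector.teichmuller p (LS.C c) * X ∈ N0 p γ a) ∧
    (∀ X : WittVector p (LS R), WittVector.verschiebung X ∈ N0 p γ a → X ∈ N0 p γ a) ∧
    (∀ X ∈ N0 p γ a, ∃ α ∈ AA γ a, ∃ o ∈ PS R, X.coeff 0 = α + o) ∧
    (∀ X : WittVector p (LS R), (∃ α ∈ AA γ a, ∃ o ∈ PS R, X.coeff 0 = α + o) →
      ∃ r : WittVector p (LS R), X - WittVector.verschiebung r ∈ N0 p γ a)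

/-- KEY: `F^(g-1) X = [κ f₀] + V [h]` modulo `V²` and `N0`, with `res (h w) = κ^p rho`.
Proof: write `≡` modulo `N0 + V²`, `f₀ = ee x`, `y_i = res (e_i w)`, `H^T y = 0` (KE and `res (e_j^p w) = 0`, OMT), `y ≠ 0` (otherwise `res (f w) = 0` for all `f` by CRD (5), `w = 0`; but `w ≠ 0` by CE since `x ≠ 0`); `H x^(p) = crd (f₀^p) = 0` (CRD). Let `t = F^(g-2) X`, `u = crd (t.coeff 0)`, so `Fr u = (Fr)^[g-1] (crd (X.coeff 0)) = κ x` (CRD (4), LIN (2)).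
`t.coeff 0 = α + ee u + o`, so `t - [ee u] ∈ V(..) + N0`: `t ≡ [ee u] + V s` (WTA (1), (2), WNO), `F t ≡ [(ee u)^p] + V F s` (`F [b] = [b^p]`), `res ((F s).coeff 0 * w) = res ((s.coeff 0)^p w) = 0` (OMT). `H u^(p) = κ x = H (κ c')` (from `e3`: `crd (ee x) = x`, `crd (eP c') = H c'`), so `u^(p) = κ c' + l x^(p)` (LIN (4)) and
`(ee u)^p = eP (u^(p)) = C κ * φ + C l * f₀^p`, `φ = eP c'`. WTA (1): `[Cκ φ + C l f₀^p] ≡ [Cκ φ] + [C l f₀^p] + V [r₁]`, `r₁ = P2 (Cκ φ) (C l f₀^p)`, `dd r₁ = 0` (PPM), so `res (r₁ w) = 0`. `[C l f₀^p] = [C l] [g0 + o0] ≡ [C l] V [z] = V [C (l^p) z]` (`X * V Y = V (F X * Y)`), `res (z w) = 0`.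
`[Cκ φ] = [Cκ] [f₀ + (-a1) + (-o1)] ≡ [Cκ] ([f₀] + V [P3 f₀ (-a1) (-o1)]) = [Cκ f₀] + V [C (κ^p) P3]`. The sum of the `V [h_i]` is `V [∑ h_i]` modulo `V²`. If `res (X.coeff 0 * w) = y ⬝ crd (X.coeff 0) ≠ 0` then `κ ≠ 0` by LIN (3), `i = g - 1`, `v = 0`. -/
def KEY_stmt : Prop := ∀ (p : ℕ) [Fact p.Prime] (Ω : Type) [Field Ω] [IsAlgClosed Ω] [CharP Ω p] (g : ℕ)
  (γ : Fin g → ℕ) (a : ℕ → LS Ω), IsK γ a → 2 ≤ g → MN p (HW p γ a) g = 0 → g ≤ (HW p γ a).rank + 1 →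
  ∀ T : Cert p γ a, T.x ≠ 0 → ∀ X : WittVector p (LS Ω), ∃ (κ : Ω) (h : LS Ω) (r : WittVector p (LS Ω)),
    (WittVector.frobenius)^[g - 1] X - WittVector.teichmuller p (LS.C κ * ee γ T.x) -
      WittVector.verschiebung (WittVector.teichmuller p h) -
        WittVector.verschiebung (WittVector.verschiebung r) ∈ N0 p γ a ∧
    res (h * T.w) = κ ^ p * T.rho ∧ (res (X.coeff 0 * T.w) ≠ 0 → κ ≠ 0)

/-- SLO: the slope.
Proof: `T.x ≠ 0` (otherwise `ee x = 0`, `g0 = -o0` is a constant, `w = 0`, `tau = 0`: `om2 = dd al`, `tau0 = res (z dd al)`, `z = P2 g0 o0` a constant; `rho = 0`). Apply ABS to `M = W(LS Ω) ⧸ N0`, `F`, `V` induced by Frobenius and Verschiebung (WNO), `V` injective (WNO (5)), `U` = the classes of the `X` with `res (X.coeff 0 * w) ≠ 0` (well defined, WNO (6)).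
`U ≠ ∅`: `w ≠ 0`. Fourth hypothesis: take coordinates of component 0: `F^i X = F^(i+1) Y + V Z` gives `(Fr)^[i] (crd X_0) = (Fr)^[i+1] (crd Y_0)`, against LIN (3). Fifth and sixth: from KEY apply `F` once more: `F [Cκ f₀] = [C κ^p] [g0 + o0] ≡ V [C (κ^(p²)) z]`, `F V [h] = V [h^p]`, so `F^g X = V Z` in `M`,
`Z.coeff 0 = C (κ^(p²)) z + h^p`; `res (Z.coeff 0 * w) = 0` (OMT), so `crd (Z.coeff 0) = Fr u` (LIN (1)) and `Z = F [ee u] + V (..)` in `M`. `res (Z.coeff 0 * om2) = κ^(p²) tau0 + (res (h w))^p = κ^(p²) tau` and it is `res ((ee u)^p om2) = (res (ee u * w))^p` (OMT; `om2` kills `A + PS`), so `[ee u] ∈ U` if `κ ≠ 0`. -/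
def SLO_stmt : Prop := ∀ (p : ℕ) [Fact p.Prime] (Ω : Type) [Field Ω] [IsAlgClosed Ω] [CharP Ω p] (g : ℕ)
  (γ : Fin g → ℕ) (a : ℕ → LS Ω), IsK γ a → 3 ≤ g → MN p (HW p γ a) g = 0 → g ≤ (HW p γ a).rank + 1 →
  ∀ T : Cert p γ a, T.tau ≠ 0 → ∀ n m : ℕ, LDiv p γ a n m → g * m ≤ n

end

end NPT
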