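import Pool.Agent.helper50.NPT.Spec1

namespace NPT

open scoped Classical
open AN

noncomputable section

theorem CMP_ee {R R' : Type} [CommRing R] [CommRing R'] (φ : R →+* R') {g : ℕ} (γ : Fin g → ℕ)
    (x : Fin g → R) : mp φ (ee γ x) = ee γ (fun j => φ (x j)) := by
  unfold ee
  rw [map_sum]
  exact Finset.sum_congr rfl fun j _ => mp_mono φ _ _

theorem CMP_eP (p : ℕ) {R R' : Type} [CommRing R] [CommRing R'] (φ : R →+* R') {g : ℕ} (γ : Fin g → ℕ)
    (c : Fin g → R) : mp φ (eP p γ c) = eP p γ (fun j => φ (c j)) := by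
  unfold eP
  rw [map_sum]
  refine Finset.sum_congr rfl fun j _ => ?_
  rw [map_mul, mp_C, map_pow, mp_mono, map_one]

theorem CMP (hBC : BC_stmt) (hPPM : PPM_stmt) : CMP_stmt := by
  intro p R R' _ _ φ g γ a hK T
  obtain ⟨-, hA, -, -, -⟩ := hBC R R' φ g 0 γ a (fun _ => 0) (fun _ => 0) hK
  have hP2 : ∀ x y : LS R, mp φ (P2 p x y) = P2 p (mp φ x) (mp φ y) :=
    fun x y => hPPM.1 p _ _ (mp φ) x y
  have hP3 : ∀ x y z : LS R, mp φ (P3 p x y z) = P3 p (mp φ x) (mp φ y) (mp φ z) := by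
    intro x y z
    unfold P3
    rw [map_add, hP2, hP2, map_add]
  refine ⟨{ x := fun j => φ (T.x j), c := fun j => φ (T.c j), c' := fun j => φ (T.c' j),
            g0 := mp φ T.g0, o0 := mp φ T.o0, al := mp φ T.al, o := mp φ T.o,
            a1 := mp φ T.a1, o1 := mp φ T.o1,
            hg0 := hA _ T.hg0, ho0 := mp_mem_GE φ T.ho0, hal := hA _ T.hal, ho := mp_mem_GE φ T.ho,
            ha1 := hA _ T.ha1, ho1 := mp_mem_GE φ T.ho1,
            e1 := ?_, e2 := ?_, e3 := ?_ }, ?_, fun j => rfl⟩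
  · rw [← CMP_ee, ← map_pow, T.e1, map_add]
  · rw [← CMP_eP, ← hP2, T.e2, map_add, map_add]
  · rw [← CMP_ee, ← CMP_eP, T.e3, map_add, map_add]
  · show res (P2 p (mp φ T.g0) (mp φ T.o0) * (mp φ T.g0 ^ (p - 1) * dd (mp φ T.g0) + dd (mp φ T.al))) +
      (res (P3 p (ee γ fun j => φ (T.x j)) (-mp φ T.a1) (-mp φ T.o1) * dd (mp φ T.g0))) ^ p = φ T.tau
    rw [← CMP_ee, dd_mp, dd_mp, ← hP2, ← map_pow, ← map_mul, ← map_add, ← map_mul, ← map_neg,
      ← map_neg, ← hP3, ← map_mul, res_mp, res_mp, ← map_pow, ← map_add]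
    rfl

end

end NPT
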