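import Pool.Agent.helper50.NPT.Spec1

namespace NPT

open scoped Classical
open AN

noncomputable section

theorem DER_pow {B : Type} [CommRing B] (δ : B →+ B) (h : ∀ u v, δ (u * v) = δ u * v + u * δ v)
    (u : B) (n : ℕ) : δ (u ^ (n + 1)) = ((n : B) + 1) * u ^ n * δ u := by
  induction n with
  | zero => simp
  | succ n ih =>
    rw [pow_succ u (n + 1), h, ih]
    push_cast
    ring

theorem DER_cast (p : ℕ) (R : Type) [CommRing R] [CharP R p] : ((p : ℕ) : LS R) = 0 := by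
  have : ((p : ℕ) : LS R) = LS.C ((p : ℕ) : R) := (map_natCast LS.C p).symm
  rw [this, CharP.cast_eq_zero, map_zero]

theorem DER (hKB : KB_stmt) (hTA : TA_stmt) (hPPM : PPM_stmt) (hOMT : OMT_stmt) : DER_stmt := by
  intro p hp R _ _ g γ a hK D θ hD T
  obtain ⟨-, kb_C, -, kb_mul, -, kb_dd, kb_AO, kb_resO⟩ := hKB R g γ a hK
  obtain ⟨hE, -, -⟩ := hTA p R g γ a hK D θ hD
  obtain ⟨wO, wPS, ddo0, ddz, omO, omPS, ome, -, -, -, -⟩ := hOMT p R g γ a hK T
  obtain ⟨q, hq⟩ : ∃ q, p = q + 1 := ⟨p - 1, by have := hp.out.one_lt; omega⟩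
  have h1A : (1 : LS R) ∈ AA γ a := by
    have := kb_C 1
    rwa [map_one] at this
  have hpowA : ∀ n : ℕ, T.g0 ^ n ∈ AA γ a := by
    intro n
    induction n with
    | zero => rw [pow_zero]; exact h1A
    | succ n ih => rw [pow_succ]; exact kb_mul _ ih _ T.hg0
  have h1P : ∀ n : ℕ, T.o0 ^ n ∈ PS R := by
    intro n
    induction n with
    | zero => rw [pow_zero]; exact one_mem_PS
    | succ n ih => rw [pow_succ]; exact PS_mul ih T.ho0
  have hδ : ∀ u v : LS R, cD D (u * v) = cD D u * v + u * cD D v := cD_mul D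
  have hpp : ∀ f : LS R, cD D (f ^ p) = 0 := by
    intro f
    have h := DER_pow (cD D) hδ f (p - 1)
    rw [Nat.sub_add_cancel hp.out.one_lt.le] at h
    have h2 : ((p - 1 : ℕ) : LS R) + 1 = 0 := by
      rw [← Nat.cast_one (R := LS R), ← Nat.cast_add, Nat.sub_add_cancel hp.out.one_lt.le]
      exact DER_cast p R
    rw [h, h2]
    ring
  -- names
  set z : LS R := P2 p T.g0 T.o0 with hz
  set w : LS R := T.w with hw
  have hw' : dd T.g0 = w := rfl
  set u : LS R := T.om2 with hu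
  have hu' : u = T.g0 ^ (p - 1) * w + dd T.al := rfl
  set Eg : LS R := cD D T.g0 + θ * w with hEg
  set Ea : LS R := cD D T.al + θ * dd T.al with hEa
  have hEgA : Eg ∈ AA γ a := hE _ T.hg0
  have hEaA : Ea ∈ AA γ a := hE _ T.hal
  set κ : LS R := T.g0 ^ (p - 1) * Eg + Ea with hκ
  have hκA : κ ∈ AA γ a := Submodule.add_mem _ (kb_mul _ (hpowA _) _ hEgA) hEaA
  have hDo : cD D T.g0 = -cD D T.o0 := by
    have h := hpp (ee γ T.x)
    rw [T.e1, map_add] at h
    exact eq_neg_of_add_eq_zero_left h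
  -- (a)
  have hLu : cD D u = dd κ - dd (θ * u) := by
    have e1 : ∀ δ : LS R →+ LS R, (∀ u v, δ (u * v) = δ u * v + u * δ v) →
        δ (T.g0 ^ (p - 1)) = ((p - 1 : ℕ) : LS R) * T.g0 ^ (p - 2) * δ T.g0 := by
      intro δ h
      have h2 : p - 1 = (p - 2) + 1 := by have := hp.out.two_le; omega
      have h3 := DER_pow δ h T.g0 (p - 2)
      rw [← h2] at h3
      rw [h3]
      congr 2
      rw [h2]
      push_cast
      ring
    have e2 := e1 (cD D) hδ
    have e3 : dd (T.g0 ^ (p - 1)) = ((p - 1 : ℕ) : LS R) * T.g0 ^ (p - 2) * dd T.g0 :=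
      e1 (dd : LS R →ₗ[R] LS R).toAddMonoidHom fun u v => dd_mul u v
    rw [hκ, hEg, hEa, hu', map_add, map_add, hδ, e2, ← hw', ← dd_cD, ← dd_cD]
    rw [dd_mul (T.g0 ^ (p - 1)), e3]
    rw [show θ * (T.g0 ^ (p - 1) * dd T.g0 + dd T.al) = T.g0 ^ (p - 1) * (θ * dd T.g0) + θ * dd T.al by ring]
    rw [map_add dd (T.g0 ^ (p - 1) * (θ * dd T.g0)), dd_mul (T.g0 ^ (p - 1)), e3]
    rw [map_add dd (cD D T.g0), map_add dd (cD D T.al)]
    ring
  -- (b)
  have hDz : cD D z = (T.o0 ^ (p - 1) - T.g0 ^ (p - 1)) * Eg - θ * dd z := by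
    have h := hPPM.2.2 p (LS R) (cD D) hδ T.g0 T.o0
    rw [hz, h, ← hz, ddz, hEg, hDo]
    ring
  -- the identity
  have hid : cD D (z * u) = -(T.g0 ^ (p - 1) * Eg * u) + (κ * T.g0 ^ (p - 1)) * w
      + (T.o0 ^ (p - 1) * Eg * u - T.o0 ^ (p - 1) * w * κ) + dd (z * κ - z * (θ * u)) := by
    rw [hδ, hDz, hLu, map_sub, dd_mul z κ, dd_mul z (θ * u), ddz]
    ring
  have hid2 : T.o0 ^ (p - 1) * Eg * u - T.o0 ^ (p - 1) * w * κ =
      -(T.o0 ^ (p - 1) * cD D T.o0 * u) + θ * (u * u) - κ * u + (dd (T.o * (θ * u - κ)) + T.o * cD D u) := by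
    have h1 : T.o0 ^ (p - 1) * w = u + dd T.o := by rw [ome]; ring
    have h2 : Eg = -cD D T.o0 + θ * w := by rw [hEg, hDo]
    rw [hLu, dd_mul T.o, map_sub, h2]
    linear_combination (θ * u - κ) * h1
  have r1 : res (-(T.g0 ^ (p - 1) * Eg * u)) = 0 := by
    have h := kb_resO _ (kb_AO _ (kb_mul _ (hpowA (p - 1)) _ hEgA) _ omO)
    rw [← neg_one_smul R, res_smul, h, mul_zero]
  have r2 : res ((κ * T.g0 ^ (p - 1)) * w) = 0 :=
    kb_resO _ (kb_AO _ (kb_mul _ hκA _ (hpowA (p - 1))) _ wO)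
  have r3 : res (-(T.o0 ^ (p - 1) * cD D T.o0 * u)) = 0 := by
    have h : T.o0 ^ (p - 1) * cD D T.o0 * u ∈ PS R :=
      PS_mul (PS_mul (h1P _) (cD_mem_GE D T.ho0)) omPS
    rw [← neg_one_smul R, res_smul, res_PS h, mul_zero]
  have r4 : res (κ * u) = 0 := kb_resO _ (kb_AO _ hκA _ omO)
  have r5 : res (T.o * cD D u) = 0 := res_PS (PS_mul T.ho (cD_mem_GE D omPS))
  have ht0 : D T.tau0 = res (θ * (u * u)) := by
    have h : D T.tau0 = res (cD D (z * u)) := rfl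
    rw [h, hid, hid2]
    rw [res_add, res_add, res_add, res_add, res_sub, res_add, res_add, res_dd, res_dd, r1, r2, r3, r4, r5]
    ring
  have hrho : D (T.rho ^ p) = 0 := by
    rw [Derivation.leibniz_pow]
    have : ((p : ℕ) : R) = 0 := CharP.cast_eq_zero R p
    rw [nsmul_eq_mul, this, zero_mul]
  show D (T.tau0 + T.rho ^ p) = _
  rw [map_add, hrho, add_zero, ht0]

end

end NPT
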