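import Pool.Agent.helper50.NPT.Spec1

namespace NPT

open scoped Classical
open AN
open MvPowerSeries (constantCoeff coeff)

noncomputable section

theorem FAM_HW_congr (p : ℕ) {R : Type} [CommRing R] {g : ℕ} (γ : Fin g → ℕ) (a a' : ℕ → LS R)
    (h : ∀ r, ¬ Gp γ r → a r = a' r) : HW p γ a = HW p γ a' := by
  funext i j
  unfold HW
  split_ifs with h1 h2
  · rfl
  · rfl
  · rw [h _ h1]

theorem FAM_cD {k : Type} [Field k] {N : ℕ} {K : Type} [Field K] (ψ : BB k N →+* K)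
    (D : Derivation ℤ K K) (d : Fin N → K)
    (hD : ∀ b : BB k N, D (ψ b) = ∑ i, d i * ψ (MvPowerSeries.pderiv k i b)) (f : LS (BB k N)) :
    cD D (mp ψ f) = ∑ i, d i • mp ψ (cD (pdB k N i) f) := by
  ext n
  rw [cf_cD, cf_mp, cf_sum, hD]
  refine Finset.sum_congr rfl fun i _ => ?_
  rw [cf_smul, cf_mp, cf_cD, pdB_apply]

theorem FAM_mp_comp {R R' R'' : Type} [CommRing R] [CommRing R'] [CommRing R''] (φ : R →+* R')
    (φ' : R' →+* R'') (f : LS R) : mp φ' (mp φ f) = mp (φ'.comp φ) f := by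
  ext n; rfl

theorem FAM (hDZ : DZ_stmt) (hBC : BC_stmt) (hPG : PG_stmt) (hPL : PL_stmt) (hPN : PN_stmt)
    (hPO : PO_stmt) (hTH : TH_stmt) (h1 : EA1_stmt) (h2 : EA2_stmt) (hCEX : CEX_stmt)
    (hCMP : CMP_stmt) (hTAU : TAU_stmt) : FAM_stmt := by
  intro p hp k _ _ _ N g γ a ν τ hg hK hT hN
  obtain ⟨A₀, T, θ, M, hA, hA0, hTA, hM, hθ, hder⟩ := hDZ p k N g γ a ν τ hK hT
  obtain ⟨-, -, -, hHW, -⟩ := hBC _ _ (constantCoeff (σ := Fin N) (R := k)) g N γ A₀ ν T hA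
  have e0 : (HW p γ A₀).map (constantCoeff (σ := Fin N) (R := k)) = HW p γ a := by
    rw [← hHW p]
    exact FAM_HW_congr p γ _ _ hA0
  obtain ⟨q, n, hq, hn, hC, hMN⟩ := hPL p k N g (HW p γ A₀) (by rw [e0]; exact hN)
  obtain ⟨K, iK, iC, ψ, S, hψ, hS, hD⟩ := hPN p k N n q hq hC
  obtain ⟨kK, kA, kO, kH, kT⟩ := hBC _ _ ψ g N γ A₀ ν T hA
  have hAT : ATHyp p γ (fun r => mp ψ (A₀ r)) ν (fun n => mp ψ (T n)) (fun i => mp ψ (θ i))
      (M.map ψ) S := by
    refine ⟨kK, kT hTA, ?_, ?_, by omega, ?_⟩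
    · have : (M.map ψ).det = ψ M.det := (RingHom.map_det ψ M).symm
      rw [this]
      exact (hM.map ψ).ne_zero
    · intro i
      have := mp_mem_GE ψ (hθ i)
      rw [map_sub, map_sum] at this
      have e : ∑ j, mp ψ (mono (-(ν j : ℤ)) (M j i)) = ∑ j, mono (-(ν j : ℤ)) ((M.map ψ) j i) := by
        refine Finset.sum_congr rfl fun j _ => ?_
        rw [mp_mono, Matrix.map_apply]
      rw [← e]
      exact this
    · intro d hd
      obtain ⟨D, hD⟩ := hD d hd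
      refine ⟨D, fun r hr => ?_⟩
      have e : cD D (mp ψ (A₀ r)) + (∑ i, LS.C (d i) * mp ψ (θ i)) * dd (mp ψ (A₀ r)) =
          ∑ i, d i • mp ψ (cD (pdB k N i) (A₀ r) + θ i * dd (A₀ r)) := by
        rw [FAM_cD ψ D d hD, Finset.sum_mul, ← Finset.sum_add_distrib]
        refine Finset.sum_congr rfl fun i _ => ?_
        rw [map_add, map_mul, smul_add, dd_mp, mul_assoc, C_mul]
      rw [e]
      exact Submodule.sum_mem _ fun i _ => Submodule.smul_mem _ _ (kA _ (hder i r hr))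
  have z0 : MN p ((HW p γ A₀).map ψ) g = 0 := by
    rw [hPG.1]
    ext i j
    rw [Matrix.map_apply, Matrix.zero_apply]
    have : MN p (HW p γ A₀) g i j ∈ RingHom.ker ψ := by rw [hψ]; exact hMN i j
    exact this
  obtain ⟨x, hx, hx0⟩ := h1 p K g ((HW p γ A₀).map ψ) (by omega) z0
  have hr := hTH p K g N γ _ ν _ _ _ S hAT ⟨x, hx, by rw [kH]; exact hx0⟩
  rw [kH] at hr
  obtain ⟨μ, hμ, hμ'⟩ := h2 _ _ ψ g (HW p γ A₀) hr
  have hμq : μ ∉ q := fun h => hμ (by rw [← hψ] at h; exact h)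
  -- the quotient
  let π : BB k N →+* BB k N ⧸ q := Ideal.Quotient.mk q
  have hker : ∀ b ∈ q, ψ b = 0 := fun b hb => by rw [← hψ] at hb; exact hb
  let ψ' : BB k N ⧸ q →+* K := Ideal.Quotient.lift q ψ hker
  have hψ' : ψ'.comp π = ψ := RingHom.ext fun b => rfl
  have hinj : Function.Injective ψ' := by
    rw [injective_iff_map_eq_zero]
    intro y hy
    obtain ⟨b, rfl⟩ := Ideal.Quotient.mk_surjective y
    have : b ∈ RingHom.ker ψ := hy
    rw [hψ] at this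
    exact Ideal.Quotient.eq_zero_iff_mem.mpr this
  have iD : IsDomain (BB k N ⧸ q) := Ideal.Quotient.isDomain q
  have iCR : CharP (BB k N ⧸ q) p := by
    have h : CharP K p := iC
    constructor
    intro m
    rw [← CharP.cast_eq_zero_iff K p m, ← map_natCast ψ' m, map_eq_zero_iff ψ' hinj]
  obtain ⟨qK, -, -, qH, -⟩ := hBC _ _ π g N γ A₀ ν T hA
  have qN : MN p (HW p γ (fun r => mp π (A₀ r))) g = 0 := by
    rw [qH, hPG.1]
    ext i j
    rw [Matrix.map_apply, Matrix.zero_apply]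
    exact Ideal.Quotient.eq_zero_iff_mem.mpr (hMN i j)
  obtain ⟨C, hCx⟩ := hCEX p (BB k N ⧸ q) g γ (fun r => mp π (A₀ r)) qK hg qN K ψ' hinj (by
    rw [qH, Matrix.map_map]
    exact hr)
  have htau : C.tau ≠ 0 := by
    obtain ⟨C', hC1, hC2⟩ := hCMP p _ _ ψ' g γ (fun r => mp π (A₀ r)) qK C
    have hAT' : ATHyp p γ (fun r => mp ψ' (mp π (A₀ r))) ν (fun n => mp ψ (T n)) (fun i => mp ψ (θ i))
      (M.map ψ) S := hAT
    have h3 := hTAU p K g N γ _ ν _ _ _ S hAT' C' (by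
      intro h0
      apply hCx
      funext j
      have h4 := congrFun h0 j
      rw [hC2 j] at h4
      exact (map_eq_zero_iff ψ' hinj).mp h4)
    intro h0
    rw [hC1, h0, map_zero] at h3
    exact h3 rfl
  obtain ⟨t, ht⟩ := Ideal.Quotient.mk_surjective C.tau
  have htq : t ∉ q := fun h => htau (by rw [← ht]; exact Ideal.Quotient.eq_zero_iff_mem.mpr h)
  have hμt : μ * t ∉ q := fun h => (hq.mem_or_mem h).elim hμq htq
  obtain ⟨Φ, hΦ, hΦμt, hΦc⟩ := hPO k N n q hq hC (μ * t) hμt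
  have hΦμ : Φ μ ≠ 0 := fun h => hΦμt (by rw [map_mul, h, zero_mul])
  have hΦt : Φ t ≠ 0 := fun h => hΦμt (by rw [map_mul, h, mul_zero])
  obtain ⟨lK, -, -, lH, -⟩ := hBC _ _ (Φ : BB k N →+* PowerSeries k) g N γ A₀ ν T hA
  let Φ' : BB k N ⧸ q →+* PowerSeries k := Ideal.Quotient.lift q (Φ : BB k N →+* PowerSeries k) hΦ
  refine ⟨fun r => mp (Φ : BB k N →+* PowerSeries k) (A₀ r), lK, ?_, ?_, ?_, ?_⟩
  · intro r hr
    rw [← hA0 r hr]
    ext m
    rw [cf_mp, cf_mp, cf_mp]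
    exact hΦc _
  · rw [lH, hPG.1]
    refine Matrix.ext fun i j => ?_
    rw [Matrix.map_apply, Matrix.zero_apply]
    exact hΦ _ (hMN i j)
  · intro Ω _ φ hφ
    rw [lH, Matrix.map_map]
    refine hμ' Ω (φ.comp (Φ : BB k N →+* PowerSeries k)) fun h => hΦμ ?_
    exact hφ (by rw [map_zero]; exact h)
  · obtain ⟨C', hC1, -⟩ := hCMP p _ _ Φ' g γ (fun r => mp π (A₀ r)) qK C
    have hC'' : ∃ C' : Cert p γ (fun r => mp Φ' (mp π (A₀ r))), C'.tau = Φ' C.tau := ⟨C', hC1⟩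
    have e : (fun r => mp Φ' (mp π (A₀ r))) = fun r => mp (Φ : BB k N →+* PowerSeries k) (A₀ r) := rfl
    rw [e] at hC''
    obtain ⟨C2, hC2⟩ := hC''
    refine ⟨C2, ?_⟩
    rw [hC2, ← ht]
    exact hΦt

end

end NPT
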