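import Pool.Agent.helper50.NPT.Spec1

namespace NPT

open scoped Classical
open AN

noncomputable section

theorem OMT_ddeP (p : ℕ) {R : Type} [CommRing R] [CharP R p] {g : ℕ} (γ : Fin g → ℕ) (c : Fin g → R) :
    dd (eP p γ c) = 0 := by
  unfold eP
  rw [map_sum]
  refine Finset.sum_eq_zero fun j _ => ?_
  rw [dd_mul, dd_C, dd_pow_char p _ p (dvd_refl p), zero_mul, mul_zero, add_zero]

theorem OMT (hKB : KB_stmt) (hCB : CB_stmt) (hCC : CC_stmt) (hPPM : PPM_stmt) : OMT_stmt := by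
  intro p hp R _ _ g γ a hK T
  obtain ⟨-, kb_C, -, kb_mul, -, kb_dd, kb_AO, kb_resO⟩ := hKB R g γ a hK
  have h1A : (1 : LS R) ∈ AA γ a := by
    have := kb_C 1
    rwa [map_one] at this
  have hpowA : ∀ n : ℕ, T.g0 ^ n ∈ AA γ a := by
    intro n
    induction n with
    | zero => rw [pow_zero]; exact h1A
    | succ n ih => rw [pow_succ]; exact kb_mul _ ih _ T.hg0
  have h1P : ∀ n : ℕ, T.o0 ^ n ∈ PS R := by
    intro n
    induction n with
    | zero => rw [pow_zero]; exact one_mem_PS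
    | succ n ih => rw [pow_succ]; exact PS_mul ih T.ho0
  have hdd0 : dd (T.g0 + T.o0) = 0 := by
    rw [← T.e1]
    exact dd_pow_char p _ p (dvd_refl p)
  have hdo0 : dd T.o0 = -T.w := by
    rw [map_add] at hdd0
    exact eq_neg_of_add_eq_zero_right hdd0
  have hwO : T.w ∈ OmA γ a := kb_dd _ T.hg0
  have hwPS : T.w ∈ PS R := by
    have h1 := Submodule.neg_mem _ (dd_mem_PS T.ho0)
    rw [hdo0, neg_neg] at h1
    exact h1
  have hddz : dd (P2 p T.g0 T.o0) = (T.o0 ^ (p - 1) - T.g0 ^ (p - 1)) * T.w := by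
    have h := hPPM.2.2 p (LS R) (dd : LS R →ₗ[R] LS R).toAddMonoidHom (fun u v => dd_mul u v) T.g0 T.o0
    have h' : dd (P2 p T.g0 T.o0) = (T.g0 + T.o0) ^ (p - 1) * (dd T.g0 + dd T.o0)
        - T.g0 ^ (p - 1) * dd T.g0 - T.o0 ^ (p - 1) * dd T.o0 := h
    rw [h', hdo0]
    show (T.g0 + T.o0) ^ (p - 1) * (T.w + -T.w) - T.g0 ^ (p - 1) * T.w - T.o0 ^ (p - 1) * -T.w = _
    ring
  have hom : T.om2 = T.o0 ^ (p - 1) * T.w - dd T.o := by
    have h1 : dd (P2 p T.g0 T.o0) = dd T.al + dd T.o := by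
      rw [T.e2, map_add, map_add, OMT_ddeP p γ T.c, zero_add]
    rw [hddz] at h1
    show T.g0 ^ (p - 1) * T.w + dd T.al = _
    linear_combination (-1 : LS R) * h1
  have homO : T.om2 ∈ OmA γ a :=
    Submodule.add_mem _ (kb_AO _ (hpowA _) _ hwO) (kb_dd _ T.hal)
  have homPS : T.om2 ∈ PS R := by
    rw [hom]
    exact Submodule.sub_mem _ (PS_mul (h1P _) hwPS) (dd_mem_PS T.ho)
  have hann : ∀ r : LS R, dd r = 0 → res (r * T.w) = 0 := by
    intro r hr
    have h1 : r * T.w = dd (r * T.g0) := by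
      rw [dd_mul, hr, zero_mul, zero_add]
      rfl
    rw [h1, res_dd]
  refine ⟨hwO, hwPS, hdo0, hddz, homO, homPS, hom, hann, ?_, ?_, ?_⟩
  · intro f
    exact hann _ (dd_pow_char p f p (dvd_refl p))
  · intro f
    obtain ⟨y, hy⟩ := hCB p R T.g0
    exact hCC p R f T.w T.om2 (y + T.al) (by
      show T.g0 ^ (p - 1) * dd T.g0 + dd T.al = dd T.g0 ^ p * mono ((p : ℤ) - 1) 1 + dd (y + T.al)
      rw [hy, map_add, add_assoc])
  · rw [T.e2, add_mul, add_mul, res_add, res_add, hann _ (OMT_ddeP p γ T.c),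
      kb_resO _ (kb_AO _ T.hal _ hwO), res_PS (PS_mul T.ho hwPS)]
    simp

end

end NPT
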