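import Pool.Agent.helper50.NPT.KEY

namespace NPT

open scoped Classical
open AN

noncomputable section

theorem SLO_x (hKB : KB_stmt) (hOMT : OMT_stmt) (p : ℕ) [hp : Fact p.Prime] {K : Type} [Field K] [CharP K p]
    {g : ℕ} {γ : Fin g → ℕ} {a : ℕ → LS K} (hK : IsK γ a) (T : Cert p γ a) (ht : T.tau ≠ 0) : T.x ≠ 0 := by
  intro hx
  apply ht
  obtain ⟨-, -, kb3, -, -, -, -, -⟩ := hKB K g γ a hK
  obtain ⟨-, -, -, ddz, -, -, -, -, -, -, -⟩ := hOMT p K g γ a hK T
  have h0 : ee γ T.x = 0 := by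
    rw [hx]
    unfold ee
    refine Finset.sum_eq_zero fun j _ => ?_
    rw [Pi.zero_apply, mono_zero]
  have h1 := T.e1
  rw [h0, zero_pow hp.out.ne_zero] at h1
  have h2 : T.g0 ∈ PS K := by
    have h3 : T.g0 = -T.o0 := eq_neg_of_add_eq_zero_left h1.symm
    rw [h3]
    exact Submodule.neg_mem _ T.ho0
  obtain ⟨c, hc⟩ := kb3 _ T.hg0 h2
  have hw : T.w = 0 := by
    show dd T.g0 = 0
    rw [hc, dd_C]
  have hdz : dd (P2 p T.g0 T.o0) = 0 := by rw [ddz, hw, mul_zero]
  have hom : T.om2 = dd T.al := by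
    show T.g0 ^ (p - 1) * T.w + dd T.al = _
    rw [hw, mul_zero, zero_add]
  have ht0 : T.tau0 = 0 := by
    show res (P2 p T.g0 T.o0 * T.om2) = 0
    rw [hom]
    have h4 : P2 p T.g0 T.o0 * dd T.al = dd (P2 p T.g0 T.o0 * T.al) := by
      rw [dd_mul, hdz, zero_mul, zero_add]
    rw [h4, res_dd]
  have hr : T.rho = 0 := by
    show res (P3 p (ee γ T.x) (-T.a1) (-T.o1) * T.w) = 0
    rw [hw, mul_zero, res_zero]
  show T.tau0 + T.rho ^ p = 0
  rw [ht0, hr, zero_pow hp.out.ne_zero, add_zero]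

theorem SLO (hKB : KB_stmt) (hCE : CE_stmt) (hOMT : OMT_stmt) (hABS : ABS_stmt) (hLIN : LIN_stmt)
    (hCRD : CRD_stmt) (hWTA : WTA_stmt) (hWNO : WNO_stmt) (hKEY : KEY_stmt) : SLO_stmt := by
  intro p hp Ω _ _ _ g γ a hK hg hMN hrk T htau n m hdiv
  have hchar := KEY_char p Ω
  have hx := SLO_x hKB hOMT p hK T htau
  obtain ⟨-, -, -, -, -, -, kb_AO, kb_resO⟩ := hKB Ω g γ a hK
  obtain ⟨cadd, czero, cee, cpow, cres⟩ := hCRD p Ω g γ a hK
  obtain ⟨wO, wPS, -, -, omO, omPS, -, ann, hpw, hpom, hzw⟩ := hOMT p Ω g γ a hK T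
  obtain ⟨hHx, hy, hHy, hHc⟩ := KEY_facts hCE hOMT hCRD p Ω g γ a hK T hx
  obtain ⟨l1, -, l3, -⟩ := hLIN p Ω g (HW p γ a) (by omega) hMN hrk T.x _ hx hHx hy hHy
  obtain ⟨n1, n2, n3, n4, n5, n6, n7⟩ := hWNO p Ω g γ a hK
  have hw0 := KEY_w0 hCE p hK T hx
  let N := N0 p γ a
  let Fh : WittVector p (LS Ω) →+ WittVector p (LS Ω) := (WittVector.frobenius : WittVector p (LS Ω) →+* _).toAddMonoidHom
  let Vh : WittVector p (LS Ω) →+ WittVector p (LS Ω) := WittVector.verschiebung
  let FM : (WittVector p (LS Ω) ⧸ N) →+ (WittVector p (LS Ω) ⧸ N) :=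
    QuotientAddGroup.map N N Fh (fun X hX => n2 X hX)
  let VM : (WittVector p (LS Ω) ⧸ N) →+ (WittVector p (LS Ω) ⧸ N) :=
    QuotientAddGroup.map N N Vh (fun X hX => n3 X hX)
  let mk : WittVector p (LS Ω) →+ (WittVector p (LS Ω) ⧸ N) := QuotientAddGroup.mk' N
  have mk0 : ∀ X, mk X = 0 ↔ X ∈ N := fun X => QuotientAddGroup.eq_zero_iff X
  have mks : ∀ x, ∃ X, mk X = x := QuotientAddGroup.mk'_surjective N
  have FMmk : ∀ X, FM (mk X) = mk (WittVector.frobenius X) := fun X => rfl
  have VMmk : ∀ X, VM (mk X) = mk (WittVector.verschiebung X) := fun X => rfl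
  have FMit : ∀ (i : ℕ) (X), FM^[i] (mk X) = mk ((WittVector.frobenius)^[i] X) := by
    intro i X
    induction i with
    | zero => rfl
    | succ i ih => rw [Function.iterate_succ_apply', Function.iterate_succ_apply', ih, FMmk]
  let U : Set (WittVector p (LS Ω) ⧸ N) := {u | ∃ X, mk X = u ∧ res (X.coeff 0 * T.w) ≠ 0}
  -- the main computation
  have main : ∀ X : WittVector p (LS Ω), ∃ (e : LS Ω) (r : WittVector p (LS Ω)),
      mk ((WittVector.frobenius)^[g] X) = VM (FM (mk (WittVector.teichmuller p e)) + VM (mk r)) ∧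
      (res (X.coeff 0 * T.w) ≠ 0 → res (e * T.w) ≠ 0) := by
    intro X
    obtain ⟨κ, h, r, hr, hh, hκ⟩ := hKEY p Ω g γ a hK (by omega) hMN hrk T hx X
    set z := P2 p T.g0 T.o0 with hz
    set Z0 : LS Ω := LS.C ((κ ^ p) ^ p) * z + h ^ p with hZ0
    have hF := n2 _ hr
    rw [map_sub, map_sub, map_sub, KEY_Ft, KEY_FV, KEY_FV, KEY_Ft, KEY_FV] at hF
    have hgg : WittVector.frobenius ((WittVector.frobenius)^[g - 1] X) = (WittVector.frobenius)^[g] X := by
      rw [← Function.iterate_succ_apply' (WittVector.frobenius : WittVector p (LS Ω) → _)]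
      congr 2
      omega
    rw [hgg] at hF
    let Q := KQ p γ a
    have q1 : Q ((WittVector.frobenius)^[g] X) = Q (WittVector.teichmuller p ((LS.C κ * ee γ T.x) ^ p)) +
        Q (WittVector.verschiebung (WittVector.teichmuller p (h ^ p))) := by
      have h1 := KQ_N0 hF
      rw [map_sub, map_sub, map_sub, KQ_VV, sub_zero, sub_sub, sub_eq_zero] at h1
      exact h1
    have q2 : Q (WittVector.teichmuller p (ee γ T.x ^ p)) =
        Q (WittVector.verschiebung (WittVector.teichmuller p z)) := by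
      rw [T.e1]
      have := KQ_add (p := p) hWTA γ a T.g0 T.o0
      rw [KQ_t hWNO hK (Or.inl T.hg0), KQ_t hWNO hK (Or.inr T.ho0), zero_add, zero_add] at this
      exact this
    have q3 : Q (WittVector.teichmuller p ((LS.C κ * ee γ T.x) ^ p)) =
        Q (WittVector.verschiebung (WittVector.teichmuller p (LS.C ((κ ^ p) ^ p) * z))) := by
      show KQ p γ a _ = KQ p γ a _
      have e : (LS.C κ * ee γ T.x) ^ p = LS.C (κ ^ p) * ee γ T.x ^ p := by
        rw [mul_pow, map_pow]
      rw [e, map_mul (WittVector.teichmuller p), KQ_C (p := p) hWNO hK (κ ^ p) q2, KEY_tV p, ← map_mul]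
      rw [← map_pow (LS.C (R := Ω))]
    have q4 : Q ((WittVector.frobenius)^[g] X) =
        Q (WittVector.verschiebung (WittVector.teichmuller p Z0)) := by
      have k := KQ_Vadd (p := p) hWTA γ a (LS.C ((κ ^ p) ^ p) * z) (h ^ p)
      rw [q1, q3]
      exact k.symm
    have q5 : Q ((WittVector.frobenius)^[g] X - WittVector.verschiebung (WittVector.teichmuller p Z0)) = 0 := by
      show KQ p γ a _ = 0
      rw [map_sub]
      exact sub_eq_zero.mpr q4
    obtain ⟨r1, hr1⟩ := KQ_eq_zero q5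
    -- coordinates
    have hy0 : res (Z0 * T.w) = 0 := by
      rw [hZ0, add_mul, res_add, mul_assoc, C_mul, res_smul, hzw, mul_zero, hpw, add_zero]
    rw [cres _ wO wPS] at hy0
    obtain ⟨u, hu⟩ := l1 _ hy0
    have hd : crd γ a (Z0 - ee γ u ^ p) = 0 := by
      have h1 := cadd (Z0 - ee γ u ^ p) (ee γ u ^ p)
      rw [sub_add_cancel, cpow, cee, ← hu] at h1
      exact add_eq_right.mp h1.symm
    obtain ⟨α, hα, o, ho, hαo⟩ := (czero _).mp hd
    obtain ⟨r2, hr2⟩ := n7 (WittVector.teichmuller p Z0 - WittVector.frobenius (WittVector.teichmuller p (ee γ u)))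
      ⟨α, hα, o, ho, by
        rw [← hαo]
        have h2 := WittVector.add_coeff_zero (WittVector.teichmuller p Z0 -
          WittVector.frobenius (WittVector.teichmuller p (ee γ u)))
          (WittVector.frobenius (WittVector.teichmuller p (ee γ u)))
        rw [sub_add_cancel, WittVector.teichmuller_coeff_zero, KEY_Ft, WittVector.teichmuller_coeff_zero] at h2
        rw [KEY_Ft]
        exact eq_sub_of_add_eq h2.symm⟩
    refine ⟨ee γ u, r2 + r1, ?_, ?_⟩
    · have h3 : mk (WittVector.teichmuller p Z0) = FM (mk (WittVector.teichmuller p (ee γ u))) + VM (mk r2) := by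
        rw [FMmk, VMmk, ← map_add, ← sub_eq_zero, ← map_sub, mk0]
        have e : WittVector.teichmuller p Z0 - (WittVector.frobenius (WittVector.teichmuller p (ee γ u)) +
            WittVector.verschiebung r2) = WittVector.teichmuller p Z0 -
              WittVector.frobenius (WittVector.teichmuller p (ee γ u)) - WittVector.verschiebung r2 := by ring
        rw [e]
        exact hr2
      have h4 : mk ((WittVector.frobenius)^[g] X) = VM (mk (WittVector.teichmuller p Z0)) + VM (VM (mk r1)) := by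
        rw [VMmk, VMmk, VMmk, ← map_add, ← sub_eq_zero, ← map_sub, mk0]
        have e : (WittVector.frobenius)^[g] X - (WittVector.verschiebung (WittVector.teichmuller p Z0) +
            WittVector.verschiebung (WittVector.verschiebung r1)) = (WittVector.frobenius)^[g] X -
              WittVector.verschiebung (WittVector.teichmuller p Z0) -
                WittVector.verschiebung (WittVector.verschiebung r1) := by ring
        rw [e]
        exact hr1
      rw [h4, h3, ← map_add VM]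
      congr 1
      rw [map_add mk, map_add VM]
      abel
    · intro hX he
      have hκ0 := hκ hX
      have h5 : res (Z0 * T.om2) = (κ ^ p) ^ p * T.tau := by
        rw [hZ0, add_mul, res_add, mul_assoc, C_mul, res_smul, hpom, hh]
        show (κ ^ p) ^ p * T.tau0 + (κ ^ p * T.rho) ^ p = (κ ^ p) ^ p * (T.tau0 + T.rho ^ p)
        ring
      have h6 : res (Z0 * T.om2) = 0 := by
        have e : Z0 = ee γ u ^ p + (α + o) := by rw [← hαo]; ring
        rw [e, add_mul, add_mul, res_add, res_add, hpom, he, kb_resO _ (kb_AO _ hα _ omO),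
          res_PS (PS_mul ho omPS), zero_pow hp.out.ne_zero, add_zero, add_zero]
      rw [h6] at h5
      rcases mul_eq_zero.mp h5.symm with h7 | h7
      · exact hκ0 ((pow_eq_zero_iff hp.out.ne_zero).mp ((pow_eq_zero_iff hp.out.ne_zero).mp h7))
      · exact htau h7
  refine hABS (WittVector p (LS Ω) ⧸ N) FM VM p g hg ?_ ?_ ?_ U ?_ ?_ ?_ ?_ n m ?_
  · intro x
    obtain ⟨X, rfl⟩ := mks x
    rw [VMmk, FMmk, WittVector.frobenius_verschiebung, ← map_nsmul, nsmul_eq_mul, mul_comm]
  · intro x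
    obtain ⟨X, rfl⟩ := mks x
    rw [FMmk, VMmk, WittVector.verschiebung_frobenius, ← map_nsmul, nsmul_eq_mul, mul_comm]
  · rw [injective_iff_map_eq_zero]
    intro x hx
    obtain ⟨X, rfl⟩ := mks x
    rw [VMmk, mk0] at hx
    exact (mk0 X).mpr (n5 X hx)
  · by_contra hU
    apply hw0
    apply KEY_zero
    intro f
    by_contra hf
    apply hU
    exact ⟨mk (WittVector.teichmuller p f), WittVector.teichmuller p f, rfl, by
      rw [WittVector.teichmuller_coeff_zero]
      exact hf⟩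
  · rintro u ⟨X, rfl, hX⟩ i hi y z heq
    obtain ⟨Y, rfl⟩ := mks y
    obtain ⟨Z, rfl⟩ := mks z
    rw [FMit, FMit, VMmk, ← map_add, ← sub_eq_zero, ← map_sub, mk0] at heq
    set S := (WittVector.frobenius)^[i] X - ((WittVector.frobenius)^[i + 1] Y + WittVector.verschiebung Z) with hS
    obtain ⟨α, hα, o, ho, hαo⟩ := n6 S heq
    have h1 : ((WittVector.frobenius)^[i] X).coeff 0 = S.coeff 0 +
        (((WittVector.frobenius)^[i + 1] Y).coeff 0 + 0) := by
      rw [← WittVector.verschiebung_coeff_zero Z, ← WittVector.add_coeff_zero, ← WittVector.add_coeff_zero, hS,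
        sub_add_cancel]
    have h2 : crd γ a (S.coeff 0) = 0 := (czero _).mpr ⟨α, hα, o, ho, hαo⟩
    have h3 := congrArg (crd γ a) h1
    rw [cadd, h2, zero_add, add_zero, KEY_iter p cpow, KEY_iter p cpow] at h3
    rw [cres _ wO wPS] at hX
    exact l3 _ hX i hi _ h3
  · intro x
    obtain ⟨X, rfl⟩ := mks x
    obtain ⟨e, r, h1, -⟩ := main X
    exact ⟨mk (WittVector.teichmuller p e), mk r, by rw [FMit, h1]⟩
  · rintro u ⟨X, rfl, hX⟩
    obtain ⟨e, r, h1, h2⟩ := main X
    exact ⟨mk (WittVector.teichmuller p e), ⟨_, rfl, by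
      rw [WittVector.teichmuller_coeff_zero]; exact h2 hX⟩, mk r, by rw [FMit, h1]⟩
  · intro x
    obtain ⟨X, rfl⟩ := mks x
    obtain ⟨Y, hY⟩ := hdiv X
    refine ⟨mk Y, ?_⟩
    rw [FMit, ← map_nsmul, ← sub_eq_zero, ← map_sub, mk0, nsmul_eq_mul]
    push_cast
    exact hY

end

end NPT
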