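import Pool.Agent.helper50.NPT.Spec1

namespace NPT

open scoped Classical
open AN

noncomputable section

theorem TAU (hCE : CE_stmt) (hDER : DER_stmt) (hOMT : OMT_stmt) (hTFG : TFG_stmt) (hTGG : TGG_stmt) :
    TAU_stmt := by
  intro p hp K _ _ g N γ a ν τ θ M S hyp T hx ht
  have hK := hyp.isK
  obtain ⟨wO, wPS, ddo0, -, omO, omPS, -, -, hpw, hpom, -⟩ := hOMT p K g γ a hK T
  have hp0 : p ≠ 0 := hp.out.ne_zero
  have hchar : CharP (LS K) p := by
    refine charP_of_injective_ringHom (f := (LS.C : K →+* LS K)) ?_ p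
    exact HahnSeries.C_injective
  have hexp : ExpChar (LS K) p := ExpChar.prime hp.out
  -- `w ≠ 0`
  have hw0 : dd T.g0 ≠ 0 := by
    intro h0
    have h1 : ∑ j, LS.C (frV p T.x j) * (mono (-(γ j : ℤ)) (1 : K)) ^ p = T.g0 + T.o0 := by
      rw [← T.e1]
      unfold ee
      rw [sum_pow_char]
      refine Finset.sum_congr rfl fun j _ => ?_
      have : mono (-(γ j : ℤ)) (T.x j) = LS.C (T.x j) * mono (-(γ j : ℤ)) (1 : K) := by
        rw [C_mul, smul_mono, mul_one]
      rw [this, mul_pow, ← map_pow]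
      rfl
    have h2 := hCE p K g γ a hK (frV p T.x) T.g0 T.hg0 T.o0 T.ho0 h1 h0
    apply hx
    funext j
    have h3 := congrFun h2 j
    exact (pow_eq_zero_iff hp0).mp h3
  have hS : ∀ d ∈ S, res ((∑ i, LS.C (d i) * θ i) * (T.om2 * T.om2)) = 0 := by
    intro d hd
    obtain ⟨D, hD⟩ := hyp.der d hd
    rw [← hDER p K g γ a hK D _ hD T, ht, map_zero]
  obtain ⟨t1, t2⟩ := hTFG p K g N γ a ν τ θ M S hyp T.g0 T.hg0 T.o0 T.ho0 (ee γ T.x) T.e1 hw0
    T.om2 omO omPS hS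
  obtain ⟨c, hc⟩ := hTGG p K g N γ a ν τ θ M S hyp T.g0 T.hg0 T.o0 T.ho0 (ee γ T.x) T.e1 hw0
    T.om2 omO omPS t1 t2
  have hres : ∀ f : LS K, res (f * T.w) = 0 := by
    intro f
    have h1 := hpom f
    have h2 : f ^ p * T.om2 = c • (f ^ p * T.w) := by
      rw [hc, ← C_mul]
      show f ^ p * (LS.C c * T.w) = _
      ring
    rw [h2, res_smul, hpw f, mul_zero] at h1
    exact (pow_eq_zero_iff hp0).mp h1.symm
  apply hw0
  apply LS.ext
  intro n
  have h := hres (mono (-1 - n) (1 : K))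
  unfold res at h
  rw [cf_mono_mul, one_mul] at h
  rw [cf_zero]
  have h3 : (-1 : ℤ) - (-1 - n) = n := by ring
  rw [h3] at h
  exact h

end

end NPT
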