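import Pool.Agent.helper50.NPT.Spec1

namespace NPT

open scoped Classical
open AN

noncomputable section

theorem TFG_act {K : Type} [CommRing K] {g N : ℕ} {γ : Fin g → ℕ} {a : ℕ → LS K} {ν : Fin N → ℕ}
    {τ : ℕ → LS K} (hT : IsT γ a ν τ) {t α : LS K} (ht : t ∈ TT ν τ) (hα : α ∈ AA γ a) :
    t * dd α ∈ AA γ a := by
  unfold TT at ht
  induction ht using Submodule.span_induction with
  | mem x hx =>
    obtain ⟨n, hn1, hn, rfl⟩ := hx
    unfold AA at hα
    induction hα using Submodule.span_induction with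
    | mem y hy =>
      obtain ⟨r, hr, rfl⟩ := hy
      exact hT.act n r hn1 hn hr
    | zero => rw [map_zero, mul_zero]; exact Submodule.zero_mem _
    | add y z _ _ hy hz => rw [map_add, mul_add]; exact Submodule.add_mem _ hy hz
    | smul c y _ hy =>
      rw [map_smul, ← C_mul, mul_left_comm, C_mul]
      exact Submodule.smul_mem _ c hy
  | zero => rw [zero_mul]; exact Submodule.zero_mem _
  | add y z _ _ hy hz => rw [add_mul]; exact Submodule.add_mem _ hy hz
  | smul c y _ hy =>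
    rw [← C_mul, mul_assoc, C_mul]
    exact Submodule.smul_mem _ c hy

/-- vector fields times differentials are functions -/
theorem TFG_actO {K : Type} [CommRing K] {g N : ℕ} {γ : Fin g → ℕ} {a : ℕ → LS K} {ν : Fin N → ℕ}
    {τ : ℕ → LS K} (hmul : ∀ f ∈ AA γ a, ∀ h ∈ AA γ a, f * h ∈ AA γ a)
    (hT : IsT γ a ν τ) {t ω : LS K} (ht : t ∈ TT ν τ) (hω : ω ∈ OmA γ a) :
    t * ω ∈ AA γ a := by
  unfold OmA at hω
  induction hω using Submodule.span_induction with
  | mem x hx =>
    obtain ⟨f, hf, h, hh, rfl⟩ := hx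
    have e : t * (f * dd h) = f * (t * dd h) := by ring
    rw [e]
    exact hmul f hf _ (TFG_act hT ht hh)
  | zero => rw [mul_zero]; exact Submodule.zero_mem _
  | add y z _ _ hy hz => rw [mul_add]; exact Submodule.add_mem _ hy hz
  | smul c y _ hy =>
    rw [mul_smul_comm]
    exact Submodule.smul_mem _ c hy

theorem TFG (hTE : TE_stmt) (hKB : KB_stmt) (hKC : KC_stmt) : TFG_stmt := by
  intro p _ K _ _ g N γ a ν τ θ M S hyp g₀ hg₀ o₀ ho₀ f₀ hf₀ hw u huO hu hS
  obtain ⟨_, _, hTE3⟩ := hTE p K g N γ a ν τ θ M S hyp g₀ hg₀ o₀ ho₀ f₀ hf₀ hw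
  obtain ⟨_, _, _, hmul, _, _, hAO, hres⟩ := hKB K g γ a hyp.isK
  have key : ∀ x : LS K, (∃ α ∈ AA γ a, ∃ o ∈ PS K, x * dd g₀ = α + o) →
      res (x * (u * u)) = 0 := by
    intro x hx
    obtain ⟨d, hd, t, ht, ρ, hρ, rfl⟩ := hTE3 x hx
    have r1 := hS d hd
    have r2 : res (t * (u * u)) = 0 := by
      rw [← mul_assoc]
      exact hres _ (hAO _ (TFG_actO hmul hyp.isT ht huO) _ huO)
    have r3 : res (ρ * (u * u)) = 0 := res_PS (PS_mul hρ (PS_mul hu hu))
    rw [add_mul, add_mul, res_add, res_add, r1, r2, r3]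
    simp
  constructor
  · apply hKC K g γ a hyp.isK
    intro f hf
    have h1 := key (f / dd g₀) ⟨f, hf, 0, Submodule.zero_mem _, by
      rw [div_mul_cancel₀ _ hw, add_zero]⟩
    have h2 : f / dd g₀ * (u * u) = f * (u * u / dd g₀) := by
      field_simp
    rw [h2] at h1
    exact h1
  · intro n hn
    have h0 : mono (-1 - n) (1 : K) ∈ PS K := GE_mono (by omega) (mono_mem_GE (-1 - n) (1 : K))
    have h1 := key (mono (-1 - n) (1 : K) / dd g₀) ⟨0, Submodule.zero_mem _, _, h0, by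
      rw [div_mul_cancel₀ _ hw, zero_add]⟩
    have h2 : mono (-1 - n) (1 : K) / dd g₀ * (u * u) =
        mono (-1 - n) (1 : K) * (u * u / dd g₀) := by
      field_simp
    rw [h2] at h1
    unfold res at h1
    rw [cf_mono_mul, one_mul] at h1
    have h3 : (-1 : ℤ) - (-1 - n) = n := by ring
    rw [h3] at h1
    exact h1

end

end NPT
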