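import Pool.Agent.helper50.NPT.Spec1

namespace NPT

open scoped Classical
open AN

noncomputable section

theorem TGG_id {K : Type} [Field K] (D : Derivation ℤ K K) (θ' w f : LS K) :
    f * f * (cD D w + dd (θ' * w)) =
      f * ((cD D (f * w) + dd (θ' * (f * w))) + (cD D (f * w) + dd (θ' * (f * w)))) -
        (cD D (f * (f * w)) + dd (θ' * (f * (f * w)))) := by
  rw [show θ' * (f * w) = f * (θ' * w) by ring, show θ' * (f * (f * w)) = f * (f * (θ' * w)) by ring,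
    show dd (f * (f * (θ' * w))) = dd f * (f * (θ' * w)) + f * (dd f * (θ' * w) + f * dd (θ' * w)) by
      rw [dd_mul, dd_mul],
    show dd (f * (θ' * w)) = dd f * (θ' * w) + f * dd (θ' * w) by rw [dd_mul],
    cD_mul D f (f * w), cD_mul D f w]
  ring

theorem TGG_int {K : Type} [Field K] (f b₁ b₂ : LS K) (h1 : b₁ ∈ PS K) (h2 : b₂ ∈ PS K)
    (h : f * f = f * b₁ + b₂) : f ∈ PS K := by
  by_contra hc
  have hex : ∃ n : ℤ, n < 0 ∧ cf f n ≠ 0 := by
    by_contra h'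
    push Not at h'
    exact hc fun n hn => h' n hn
  obtain ⟨N, hN⟩ := exists_lb f
  obtain ⟨n, hn0, hn⟩ := hex
  obtain ⟨m, ⟨hm0, hm⟩, hmin⟩ := Int.exists_least_of_bdd (P := fun n : ℤ => n < 0 ∧ cf f n ≠ 0)
    ⟨N, fun z hz => by
      by_contra hlt
      exact hz.2 (hN z (by omega))⟩ ⟨n, hn0, hn⟩
  have hf : f ∈ GE K m := by
    intro k hk
    by_contra hk'
    have := hmin k ⟨by omega, hk'⟩
    omega
  have e1 : cf (f * f) (m + m) = cf f m * cf f m := cf_mul_lead hf hf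
  have e2 : cf (f * f) (m + m) = 0 := by
    rw [h, cf_add]
    have h3 : f * b₁ ∈ GE K (m + 0) := GE_mul hf h1
    rw [h3 (m + m) (by omega), h2 (m + m) (by omega), add_zero]
  rw [e1] at e2
  exact hm (mul_self_eq_zero.mp e2)

theorem TGG (hKB : KB_stmt) (hTA : TA_stmt) (hTB : TB_stmt) (hTC : TC_stmt) (hTE : TE_stmt) :
    TGG_stmt := by
  intro p hp K _ _ g N γ a ν τ θ M S hyp g₀ hg₀ o₀ ho₀ f₀ hf₀ hw0 u huO huPS tf1 tf2
  have hK := hyp.isK
  obtain ⟨-, -, -, -, -, kb_dd, kb_mul, -⟩ := hKB K g γ a hK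
  obtain ⟨te1, te2, -⟩ := hTE p K g N γ a ν τ θ M S hyp g₀ hg₀ o₀ ho₀ f₀ hf₀ hw0
  obtain ⟨tb1, tb2⟩ := hTB K g γ a hK
  set w : LS K := dd g₀ with hw
  have hdo : dd o₀ = -w := by
    have h1 : dd (f₀ ^ p) = 0 := dd_pow_char p f₀ p dvd_rfl
    rw [hf₀, map_add] at h1
    exact eq_neg_of_add_eq_zero_right h1
  have hwPS : w ∈ PS K := by
    have h1 : dd o₀ ∈ PS K := dd_mem_PS ho₀
    rw [hdo] at h1
    have := Submodule.neg_mem _ h1
    rwa [neg_neg] at this
  have hwO : w ∈ OmA γ a := kb_dd g₀ hg₀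
  obtain ⟨f, hf⟩ : ∃ f : LS K, f * w = u := ⟨u / w, div_mul_cancel₀ u hw0⟩
  have hv : u * u / w = f * u := by
    rw [← hf]
    field_simp
  rw [hv] at tf1 tf2
  -- (b)
  have hfPS : f ∈ PS K := by
    obtain ⟨D, c, ρ, hρ, hb⟩ := te2 (mono 1 1) (GE_mono (by norm_num) (mono_mem_GE 1 1))
    have h1 : (1 : LS K) = -(cD D w + dd (ρ * w)) := by
      have h2 : dd (mono 1 (1 : K)) = (1 : LS K) := by
        rw [dd_mono]
        simp only [Int.cast_one, mul_one, sub_self]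
        rw [← C_eq_mono, map_one]
      rw [← h2, hb, map_add, map_add, dd_C, dd_cD, hdo, map_neg, mul_neg, map_neg]
      ring
    have hid := TGG_id D ρ w f
    rw [hf] at hid
    refine TGG_int f (-((cD D u + dd (ρ * u)) + (cD D u + dd (ρ * u))))
      (cD D (f * u) + dd (ρ * (f * u))) ?_ ?_ ?_
    · refine Submodule.neg_mem _ (Submodule.add_mem _ ?_ ?_) <;>
        exact Submodule.add_mem _ (cD_mem_GE D huPS) (dd_mem_PS (PS_mul hρ huPS))
    · exact Submodule.add_mem _ (cD_mem_GE D tf2) (dd_mem_PS (PS_mul hρ tf2))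
    · calc f * f = -(f * f * (cD D w + dd (ρ * w))) := by
            rw [← mul_neg, ← h1, mul_one]
        _ = _ := by rw [hid]; ring
  -- (a)
  let X : Submodule K (LS K) := OmA γ a ⊔ (OmA γ a).map (LinearMap.mulLeft K f)
  have hΩX : ∀ ω ∈ OmA γ a, ω ∈ X := fun ω hω => Submodule.mem_sup_left hω
  have hfΩX : ∀ ω ∈ OmA γ a, f * ω ∈ X := fun ω hω =>
    Submodule.mem_sup_right ⟨ω, hω, rfl⟩
  have hXmem : ∀ x, x ∈ X ↔ ∃ ω₁ ∈ OmA γ a, ∃ ω₂ ∈ OmA γ a, x = ω₁ + f * ω₂ := by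
    intro x
    constructor
    · intro hx
      obtain ⟨y, hy, z, ⟨t, ht, htz⟩, hyz⟩ := Submodule.mem_sup.mp hx
      refine ⟨y, hy, t, ht, ?_⟩
      rw [← hyz, ← htz]; rfl
    · rintro ⟨ω₁, h1, ω₂, h2, rfl⟩
      exact Submodule.add_mem _ (hΩX _ h1) (hfΩX _ h2)
  have hAX : ∀ b ∈ AA γ a, ∀ x ∈ X, b * x ∈ X := by
    intro b hb x hx
    obtain ⟨ω₁, h1, ω₂, h2, rfl⟩ := (hXmem x).mp hx
    rw [hXmem]
    exact ⟨b * ω₁, kb_mul b hb ω₁ h1, b * ω₂, kb_mul b hb ω₂ h2, by ring⟩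
  have hff : ∀ ω ∈ OmA γ a, f * f * ω ∈ X := by
    intro ω hω
    unfold OmA at hω
    refine Submodule.span_induction (p := fun ω _ => f * f * ω ∈ X) ?_ ?_ ?_ ?_ hω
    · rintro x ⟨β', hβ', β, hβ, rfl⟩
      obtain ⟨D, θ', c, hE, hβe⟩ := te1 β hβ
      obtain ⟨-, ta, -⟩ := hTA p K g γ a hK D θ' hE
      have h1 : dd β = cD D w + dd (θ' * w) := by
        rw [hβe, map_add, map_add, dd_C, dd_cD, add_zero]
      have hid := TGG_id D θ' w f
      rw [hf, ← h1] at hid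
      have h2 : f * f * (β' * dd β) = β' * (f * f * dd β) := by ring
      rw [h2]
      refine hAX β' hβ' _ ?_
      rw [hid]
      exact Submodule.sub_mem _ (hfΩX _ (Submodule.add_mem _ (ta u huO) (ta u huO)))
        (hΩX _ (ta _ tf1))
    · rw [mul_zero]; exact Submodule.zero_mem _
    · intro x y _ _ hx hy
      rw [mul_add]; exact Submodule.add_mem _ hx hy
    · intro c x _ hx
      rw [mul_smul_comm]; exact Submodule.smul_mem _ _ hx
  have hfX : ∀ x ∈ X, f * x ∈ X := by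
    intro x hx
    obtain ⟨ω₁, h1, ω₂, h2, rfl⟩ := (hXmem x).mp hx
    rw [mul_add, ← mul_assoc]
    exact Submodule.add_mem _ (hfΩX _ h1) (hff _ h2)
  -- (c)
  obtain ⟨m, hm⟩ := tb2 w hwO hw0
  let F : Submodule K (LS K) := OmA γ a ⊓ GE K m
  let F' : Submodule K (LS K) := OmA γ a ⊓ GE K (min m 0)
  have hF : FiniteDimensional K F := tb1 m
  have hF' : FiniteDimensional K F' := tb1 (min m 0)
  let Y : Submodule K (LS K) := F' ⊔ F.map (LinearMap.mulLeft K f)
  have hYfin : FiniteDimensional K Y := by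
    have : FiniteDimensional K (F.map (LinearMap.mulLeft K f)) := inferInstance
    exact Submodule.finiteDimensional_sup _ _
  have hXY : ∀ x ∈ X, x ∈ PS K → x ∈ Y := by
    intro x hx hxPS
    obtain ⟨ω₁, h1, ω₂, h2, rfl⟩ := (hXmem x).mp hx
    obtain ⟨b, hb, hbm⟩ := hm ω₂ h2
    have hφ : ω₂ - w * b ∈ F := by
      refine ⟨Submodule.sub_mem _ h2 ?_, hbm⟩
      rw [mul_comm]; exact kb_mul b hb w hwO
    have e : ω₁ + f * ω₂ = (ω₁ + b * u) + f * (ω₂ - w * b) := by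
      rw [← hf]; ring
    have h3 : f * (ω₂ - w * b) ∈ GE K m := by
      have := GE_mul hfPS hbm
      rwa [zero_add] at this
    have h4 : ω₁ + b * u ∈ F' := by
      refine ⟨Submodule.add_mem _ h1 (kb_mul b hb u huO), ?_⟩
      have h5 : ω₁ + b * u = (ω₁ + f * ω₂) - f * (ω₂ - w * b) := by rw [e]; ring
      rw [h5]
      exact Submodule.sub_mem _ (GE_mono (min_le_right _ _) hxPS) (GE_mono (min_le_left _ _) h3)
    rw [e]
    exact Submodule.add_mem _ (Submodule.mem_sup_left h4) (Submodule.mem_sup_right ⟨_, hφ, rfl⟩)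
  have hpow : ∀ n : ℕ, f ^ n * w ∈ X ∧ f ^ n * w ∈ PS K := by
    intro n
    induction n with
    | zero => rw [pow_zero, one_mul]; exact ⟨hΩX w hwO, hwPS⟩
    | succ n ih =>
      rw [pow_succ', mul_assoc]
      exact ⟨hfX _ ih.1, PS_mul hfPS ih.2⟩
  -- algebraicity
  have hpoly : ∀ P : Polynomial K, Polynomial.aeval f P * w ∈ Y := by
    intro P
    rw [Polynomial.aeval_eq_sum_range, Finset.sum_mul]
    refine Submodule.sum_mem _ fun i _ => ?_
    rw [smul_mul_assoc]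
    exact Submodule.smul_mem _ _ (hXY _ (hpow i).1 (hpow i).2)
  have hex : ∃ P : Polynomial K, P ≠ 0 ∧ Polynomial.aeval f P = 0 := by
    by_contra hcon
    push Not at hcon
    let Λ : Polynomial K →ₗ[K] Y :=
      LinearMap.codRestrict Y ((LinearMap.mulRight K w).comp (Polynomial.aeval f).toLinearMap) hpoly
    have hinj : Function.Injective Λ := by
      rw [injective_iff_map_eq_zero]
      intro P hP
      by_contra hP0
      have h1 : Polynomial.aeval f P * w = 0 := congrArg Subtype.val hP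
      rcases mul_eq_zero.mp h1 with h | h
      · exact hcon P hP0 h
      · exact hw0 h
    have := Module.Finite.of_injective Λ hinj
    exact Polynomial.not_finite (R := K) this
  obtain ⟨P, hP0, hP⟩ := hex
  obtain ⟨c, hc⟩ := hTC K f hfPS ⟨P, hP0, hP⟩
  exact ⟨c, by rw [← hc, hf]⟩

end

end NPT
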