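import Pool.Agent.helper84.AN.Def

/-!
# The smallest Newton slope of a curve: definition

`C` a smooth projective connected curve over an algebraically closed field `k` of characteristic `p`, given by its function field `F`;
`P ≠ Q` two points. `H = H¹(C, W O_C) = W(O(C - P - Q)) / (W(O(C - P)) + W(O(C - Q)))` (Serre's Witt vector cohomology, computed with the
covering `C = (C - P) ∪ (C - Q)`). Its slopes (as an `F`-isocrystal) are the slopes `< 1` of the Jacobian of `C`, with multiplicities; the smallest
one is the supremum of the `m / n` with `F^n H ⊆ p^m H`.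
-/

set_option autoImplicit false

namespace Pool.Agent.helper50.NP

open Pool.Agent.helper84.GC

noncomputable section

/-- the Witt vectors over `F` all of whose components are regular outside `S`: `W(O(C - S))`. (The subgroup generated by a set which is
in fact a subgroup.) -/
def WReg (p : ℕ) [Fact p.Prime] {k F : Type} [Field k] [Field F] [Algebra k F] (S : Set (Place k F)) :
    AddSubgroup (WittVector p F) :=
  AddSubgroup.closure {x | ∀ (n : ℕ) (P : Place k F), P ∉ S → 0 ≤ P.ord (x.coeff n)}

/-- `F^n H ⊆ p^m H` for `H = W(O(C - P - Q)) / (W(O(C - P)) + W(O(C - Q)))` -/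
def FrobDiv (p : ℕ) [Fact p.Prime] {k F : Type} [Field k] [Field F] [Algebra k F] (P Q : Place k F)
    (n m : ℕ) : Prop :=
  ∀ x ∈ WReg p ({P, Q} : Set (Place k F)), ∃ y ∈ WReg p ({P, Q} : Set (Place k F)),
    (WittVector.frobenius)^[n] x - (p : WittVector p F) ^ m * y ∈
      WReg p ({P} : Set (Place k F)) ⊔ WReg p ({Q} : Set (Place k F))

/-- the smallest Newton slope is at most `1 / g`: `F^n H ⊆ p^m H` implies `m / n ≤ 1 / g` -/
def SlopeLE (p : ℕ) [Fact p.Prime] (k F : Type) [Field k] [Field F] [Algebra k F] (g : ℕ) : Prop :=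
  ∀ P Q : Place k F, P ≠ Q → ∀ n m : ℕ, FrobDiv p P Q n m → g * m ≤ n

end

end Pool.Agent.helper50.NP
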