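import Pool.Agent.helper50.NPT.Spec1
import Pool.Agent.helper48.AN.SpecZ

/-!
# Project NPT (MP_8f32d0_ag), blocks 4 and 5: function fields, assembly

Rules as in `Spec1.lean` (`import Pool.Agent.helper50.NPT.Spec2`).
-/

namespace NPT

open scoped Classical
open AN
open Pool.Agent.helper53.AU

noncomputable section

/-- the functions regular outside `S` -/
def RegS {k F : Type} [Field k] [Field F] [Algebra k F] (S : Set (Place k F)) : Set F :=
  {f | ∀ P : Place k F, P ∉ S → P.Ge 0 f}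

/-- `F^n H ⊆ p^m H` for `H = H¹(C, W O) = W(C - P - Q) / (W(C - P) + W(C - Q))` -/
def FDiv (p : ℕ) [Fact p.Prime] {k F : Type} [Field k] [Field F] [Algebra k F] (P Q : Place k F) (n m : ℕ) : Prop :=
  ∀ X ∈ Wc p (RegS {P, Q} : Set F), ∃ Y ∈ Wc p (RegS {P, Q} : Set F),
    (WittVector.frobenius)^[n] X - (p : WittVector p F) ^ m * Y ∈
      Wc p (RegS {P} : Set F) ⊔ Wc p (RegS {Q} : Set F)

/-! ## Block 4: function fields -/

/-- FPA: polar parts at `P` with functions regular outside `P`, `Q`.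
Proof: `t` a function with `P.ord t = 1` (uniformiser). For `i ≥ 1` let `b = t^i`; its other poles and zeros are finite in number (aQV4). By strong approximation outside `Q` (aQR4 with `P₀ = Q`) there is `c ∈ Reg Q` with `c` close to 1 at `P` (`P.Ge 1 (c - 1)`, so `P.ord c = 0`) and vanishing to high order at the zeros `≠ P, Q` of `b`; `f = c / b` is
regular outside `P`, `Q` and `P.ord f = -i`. So every Laurent series is `ι f + o`, `f` regular outside `P`, `Q`, `o ∈ PS` (finitely many polar coefficients, subtract multiples of such functions, by induction on the pole order). -/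
def FPA_stmt : Prop := ∀ (k F : Type) [Field k] [IsAlgClosed k] [Field F] [Algebra k F], IsFF k F →
  ∀ (P Q : Place k F), P ≠ Q → ∀ ι : F →+* LS k, Lau P ι → ∀ X : LS k,
    ∃ f ∈ (RegS {P, Q} : Set F), ∃ o ∈ PS k, X = ι f + o

/-- FPB: the comparison `H¹(C, W O) = W(C - P - Q) / (W(C - P) + W(C - Q)) = W(LS) / (W(A) + W(PS))`.
Proof: `RegS {P, Q}`, `RegS {P}` (= `Reg P`), `RegS {Q}` are subrings of `F`; WSR for these, for `A` and `PS`. (1) surjectivity: given `X ∈ W(LS k)` construct by recursion the components `x_n ∈ RegS {P, Q}` and `o_n ∈ PS`: `X = [ι x_0] + [o_0] + V X_1`, `X_1 = [ι x_1] + [o_1] + V X_2`, ... (FPA, WTA); `x = ∑ V^n [x_n]` is the Witt vector with components `x_n`,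
similarly `o`, and `X - map ι x - o ∈ V^n W` for all `n`, so it is 0. (`∑_{i<n} V^i [x_i] - x ∈ V^n W`.) (2) injectivity: `map ι x = α + β`, `α ∈ W(A)`, `β ∈ W(PS)`; the components of `α` are `ι` of elements of `Reg P`, so `α = map ι a'`, `a' ∈ W(RegS {P})`, and `x - a'` has components in `RegS {P, Q}` whose images are in `PS`, so they are regular at `P`:
`x - a' ∈ W(RegS {Q})`. (`ι` injective; `Lau.ne`, `Lau.mem`: `ι f ∈ PS` iff `P.Ge 0 f`.) -/
def FPB_stmt : Prop := ∀ (p : ℕ) [Fact p.Prime] (k F : Type) [Field k] [IsAlgClosed k] [CharP k p] [Field F]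
  [Algebra k F], IsFF k F → ∀ (P Q : Place k F), P ≠ Q → ∀ ι : F →+* LS k, Lau P ι →
  ∀ (g : ℕ) (γ : Fin g → ℕ) (a : ℕ → LS k), IsK γ a → (∀ x : LS k, x ∈ AA γ a ↔ ∃ f ∈ Reg P, x = ι f) →
    (∀ X : WittVector p (LS k), ∃ x ∈ Wc p (RegS {P, Q} : Set F), X - WittVector.map ι x ∈ N0 p γ a) ∧
    (∀ x ∈ Wc p (RegS {P, Q} : Set F), WittVector.map ι x ∈ N0 p γ a ↔
      x ∈ Wc p (RegS {P} : Set F) ⊔ Wc p (RegS {Q} : Set F))

/-- FPC: consequence for divisibility, in both directions. Proof: FPB; `map ι` commutes with Frobenius and products; `N0` is stable under multiplication by the integer `p^m` and under `F` (WNO), `W(RegS {P, Q})` is stable under `F` (WSR). -/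
def FPC_stmt : Prop := ∀ (p : ℕ) [Fact p.Prime] (k F : Type) [Field k] [IsAlgClosed k] [CharP k p] [Field F]
  [Algebra k F], IsFF k F → ∀ (P Q : Place k F), P ≠ Q → ∀ ι : F →+* LS k, Lau P ι →
  ∀ (g : ℕ) (γ : Fin g → ℕ) (a : ℕ → LS k), IsK γ a → (∀ x : LS k, x ∈ AA γ a ↔ ∃ f ∈ Reg P, x = ι f) →
    ∀ n m : ℕ, FDiv p P Q n m ↔ LDiv p γ a n m

/-- FPD: independence of the two points. Proof: `FDiv p P Q = FDiv p Q P` (`Set.pair_comm`, `sup_comm`). For a place `P` there are `ι` (FA) and one-point data (FS), so by FPC `FDiv p P Q` is equivalent to `FDiv p P Q'` for `Q, Q' ≠ P`. -/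
def FPD_stmt : Prop := ∀ (p : ℕ) [Fact p.Prime] (k F : Type) [Field k] [IsAlgClosed k] [CharP k p] [Field F]
  [Algebra k F], IsFF k F → ∀ g : ℕ, IsGenus k F g → ∀ (P Q P' Q' : Place k F), P ≠ Q → P' ≠ Q' →
    ∀ n m : ℕ, FDiv p P Q n m ↔ FDiv p P' Q' n m

/-! ## Block 5: assembly -/

/-- FIN: ASSEMBLY. As ZZ of project an (`helper48/AN/ZZ.lean`) with FAM instead of EA; the data `T` over `k[[X]]` are base changed to `L = AlgebraicClosure k((X))` (CMP, twice; `tau ≠ 0` since `k[[X]] → L` is injective), SLO for the one-point data over `L`, FPC for `P₁` and any `Q ≠ P₁`, FPD. -/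
def FIN_stmt : Prop :=
  ∀ (p : ℕ) [Fact p.Prime] (k : Type) [Field k] [IsAlgClosed k] [CharP k p]
    (F₀ : Type) [Field F₀] [Algebra k F₀] (g : ℕ), 3 ≤ g → IsFF k F₀ → IsGenus k F₀ g →
    AN.PRankZero p k F₀ →
    ∃ (E : Type) (_ : Field E) (_ : Algebra (LaurentSeries k) E) (E' : Type) (_ : Field E')
      (_ : Algebra (AlgebraicClosure (LaurentSeries k)) E') (j : E →+* E'),
      IsFF (LaurentSeries k) E ∧ AN.GoodReduction k F₀ E ∧
      AN.IsConstExt (LaurentSeries k) (AlgebraicClosure (LaurentSeries k)) E E' j ∧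
      IsFF (AlgebraicClosure (LaurentSeries k)) E' ∧
      IsGenus (AlgebraicClosure (LaurentSeries k)) E' g ∧
      AN.PRankZero p (AlgebraicClosure (LaurentSeries k)) E' ∧
      AN.aNumber (AlgebraicClosure (LaurentSeries k)) E' = 1 ∧
      ∀ P Q : Place (AlgebraicClosure (LaurentSeries k)) E', P ≠ Q → ∀ n m : ℕ, FDiv p P Q n m → g * m ≤ n

end

end NPT
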