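import Pool.Agent.helper84.AN.Transfer
import Pool.Agent.helper50.NPT.Def
import Pool.Agent.helper50.NPT.Spec2

/-!
# The definitions of `Def.lean` agree with those of the project
-/

set_option autoImplicit false

namespace Pool.Agent.helper50.NP

open Pool.Agent.helper84.GC

noncomputable section

variable {k F : Type} [Field k] [Field F] [Algebra k F]

theorem reg_iff (P : Place k F) (f : F) : 0 ≤ P.ord f ↔ (e k F P).Ge 0 f := by
  constructor
  · intro h
    exact Or.inr h
  · rintro (rfl | h)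
    · rw [P.ord_zero]
    · exact h

theorem WReg_eq (p : ℕ) [Fact p.Prime] (S : Set (Place k F)) :
    WReg p S = NPT.Wc p (NPT.RegS (e k F '' S) : Set F) := by
  unfold WReg NPT.Wc
  congr 1
  ext x
  refine forall_congr' fun n => ?_
  show (∀ P : Place k F, P ∉ S → 0 ≤ P.ord (x.coeff n)) ↔
    ∀ P : Pool.Agent.helper53.AU.Place k F, P ∉ e k F '' S → P.Ge 0 (x.coeff n)
  rw [← (e k F).forall_congr_right]
  refine forall_congr' fun P => ?_
  rw [(e k F).injective.mem_set_image, reg_iff]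

theorem frobDiv_iff (p : ℕ) [Fact p.Prime] (P Q : Place k F) (n m : ℕ) :
    FrobDiv p P Q n m ↔ NPT.FDiv p (e k F P) (e k F Q) n m := by
  unfold FrobDiv NPT.FDiv
  rw [WReg_eq, WReg_eq, WReg_eq, Set.image_pair, Set.image_singleton, Set.image_singleton]

theorem slopeLE_iff (p : ℕ) [Fact p.Prime] (g : ℕ) :
    SlopeLE p k F g ↔ ∀ P Q : Pool.Agent.helper53.AU.Place k F, P ≠ Q → ∀ n m : ℕ,
      NPT.FDiv p P Q n m → g * m ≤ n := by
  unfold SlopeLE
  rw [← (e k F).forall_congr_right]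
  refine forall_congr' fun P => ?_
  rw [← (e k F).forall_congr_right]
  refine forall_congr' fun Q => ?_
  rw [(e k F).injective.ne_iff]
  refine imp_congr_right fun _ => forall_congr' fun n => forall_congr' fun m => ?_
  rw [frobDiv_iff]

theorem main (hFIN : NPT.FIN_stmt) (p : ℕ) [Fact p.Prime] (k : Type) [Field k] [IsAlgClosed k] [CharP k p]
    (F₀ : Type) [Field F₀] [Algebra k F₀] (g : ℕ) (hg : 3 ≤ g) (hF₀ : IsFF k F₀)
    (hgenus : IsGenus k F₀ g) (hrank : PRankZero p k F₀) :
    ∃ (E : Type) (_ : Field E) (_ : Algebra (LaurentSeries k) E) (E' : Type) (_ : Field E')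
      (_ : Algebra (AlgebraicClosure (LaurentSeries k)) E') (j : E →+* E'),
      IsFamily p k F₀ g E E' j ∧ aNumber (AlgebraicClosure (LaurentSeries k)) E' = 1 ∧
      SlopeLE p (AlgebraicClosure (LaurentSeries k)) E' g := by
  rw [isGenus_iff] at hgenus
  rw [pRankZero_iff] at hrank
  obtain ⟨E, iE, aE, E', iE', aE', j, h1, h2, h3, h4, h5, h6, h7, h8⟩ := hFIN p k F₀ g hg hF₀ hgenus hrank
  refine ⟨E, iE, aE, E', iE', aE', j, ⟨h1, h2, h3, h4, (isGenus_iff g).mpr h5, (pRankZero_iff p).mpr h6⟩, ?_, ?_⟩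
  · rw [aNumber_eq]
    exact h7
  · exact (slopeLE_iff p g).mpr h8

end

end Pool.Agent.helper50.NP
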