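import Pool.Agent.helper48.AN.Assemble
import Pool.Agent.helper14.NPT.LIN
import Pool.Agent.helper14.NPT.PPM
import Pool.Agent.helper34.NPT.CRD
import Pool.Agent.helper39.NPT.WTA
import Pool.Agent.helper43.NPT.WSR
import Pool.Agent.helper43.NPT.ZWR
import Pool.Agent.helper44.NPT.FPC
import Pool.Agent.helper50.NPT.CMP
import Pool.Agent.helper50.NPT.DER
import Pool.Agent.helper50.NPT.FAM
import Pool.Agent.helper50.NPT.FIN
import Pool.Agent.helper50.NPT.KEY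
import Pool.Agent.helper50.NPT.OMT
import Pool.Agent.helper50.NPT.SLO
import Pool.Agent.helper50.NPT.TAU
import Pool.Agent.helper50.NPT.TFG
import Pool.Agent.helper50.NPT.TGG
import Pool.Agent.helper50.NPT.Transfer
import Pool.Agent.helper51.NPT.WNO
import Pool.Agent.helper53.NPT.ABS
import Pool.Agent.helper63.NPT.FPB
import Pool.Agent.helper66.NPT.FPD
import Pool.Agent.helper75.NPT.CEX
import Pool.Agent.helper92.NPT.FPA

/-!
# Project NPT: assembly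
-/

set_option autoImplicit false

namespace NPT

open AN

theorem n_PPM : PPM_stmt := PPM
theorem n_LIN : LIN_stmt := LIN
theorem n_CRD : CRD_stmt := CRD a_KB a_KD a_KE
theorem n_WTA : WTA_stmt := WTA
theorem n_WSR : WSR_stmt := WSR
theorem n_ZWR : ZWR_stmt := ZWR a_KB a_CB a_CC
theorem n_WNO : WNO_stmt := WNO a_KB n_WTA n_WSR
theorem n_ABS : ABS_stmt := ABS
theorem n_OMT : OMT_stmt := OMT a_KB a_CB a_CC n_PPM
theorem n_DER : DER_stmt := DER a_KB a_TA n_PPM n_OMT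
theorem n_TFG : TFG_stmt := TFG a_TE a_KB a_KC
theorem n_TGG : TGG_stmt := TGG a_KB a_TA a_TB a_TC a_TE
theorem n_TAU : TAU_stmt := TAU a_CE n_DER n_OMT n_TFG n_TGG
theorem n_CMP : CMP_stmt := CMP a_BC n_PPM
theorem n_CEX : CEX_stmt := CEX a_KA a_KB a_KE a_CE a_PG n_PPM n_ZWR
theorem n_FAM : FAM_stmt := FAM a_DZ a_BC a_PG a_PL a_PN a_PO a_TH a_EA1 a_EA2 n_CEX n_CMP n_TAU
theorem n_KEY : KEY_stmt := KEY a_CE n_PPM n_OMT n_LIN n_CRD n_WTA n_WNO
theorem n_SLO : SLO_stmt := SLO a_KB a_CE n_OMT n_ABS n_LIN n_CRD n_WTA n_WNO n_KEY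
theorem n_FPA : FPA_stmt := FPA
theorem n_FPB : FPB_stmt := FPB a_KB n_WTA n_WSR n_FPA
theorem n_FPC : FPC_stmt := FPC n_WSR n_WNO n_FPB
theorem n_FPD : FPD_stmt := FPD n_FPC a_FA a_FS

theorem n_FIN : FIN_stmt :=
  FIN a_ZD a_FA a_FS a_FT a_FG n_FAM a_BC a_ZA a_ZF a_ZG a_ZB a_ZB0 a_ZB1 a_FH1 a_FH2 a_ZR n_CMP n_SLO
    n_FPC n_FPD

end NPT
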