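import Pool.Agent.helper50.NPT.All3a
import Pool.Agent.helper32.NPT.COO
import Pool.Agent.helper39.NPT.APE
import Pool.Agent.helper87.NPT.EIG
import Pool.Agent.helper17.NPT.FS2
import Pool.Agent.helper17.NPT.SPR
import Pool.Agent.helper27.NPT.SPC

/-!
# Project NPT, block S: assembly and final theorem
-/

set_option autoImplicit false

namespace NPT

open AN

theorem n_COO : COO_stmt := COO a_FA a_FC0 a_FCR
theorem n_APE : APE_stmt := APE a_KA a_KB
theorem n_EIG : EIG_stmt := EIG a_KA a_KB n_HEN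
theorem n_FS2 : FS2_stmt := FS2 a_FE a_FE0 a_FC a_FD a_FB a_DJ0
theorem n_SPR : SPR_stmt := SPR a_KA a_KB n_APE n_EIG
theorem n_SPC : SPC_stmt :=
  SPC a_ZD n_COO n_FS2 a_FG a_FH2 n_FVC n_FVD n_SPR a_BC n_CEX n_CMP n_TTE a_EA2 n_NUL a_ZA a_ZB a_ZB0
    a_ZB1 a_FH1 a_ZR a_KB n_OMT

end NPT

namespace Pool.Agent.helper50.NP

open Pool.Agent.helper84.GC

/-- **for every prime `p`, every algebraically closed field `k` of characteristic `p` and every `g ≥ 3` there is a curve over `k` of genus `g`,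
`p`-rank 0 and `a`-number 1 whose smallest Newton slope is at most `1 / g`** -/
theorem every_field (p : ℕ) [Fact p.Prime] (k : Type) [Field k] [IsAlgClosed k] [CharP k p] (g : ℕ) (hg : 3 ≤ g) :
    ∃ (F : Type) (_ : Field F) (_ : Algebra k F), IsFF k F ∧ IsGenus k F g ∧ PRankZero p k F ∧
      aNumber k F = 1 ∧ SlopeLE p k F g :=
  main3 NPT.x_XOD (fun K _ _ _ g => NPT.x_P2 K g) AN.a_ZA AN.a_ZB AN.a_ZB0 AN.a_ZB1 AN.a_FH1 NPT.n_FN2 NPT.n_SPC
    NPT.n_SLP p k g hg

end Pool.Agent.helper50.NP
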