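import Pool.Agent.helper50.NPT.Spec2
import Pool.Agent.helper50.NPT.Gen

/-!
# Project NPT (MP_8f32d0_ag), block S: specialisation to ANY algebraically closed field of characteristic `p`

Block F (`NPT.FIN`) gives curves over `K = AlgebraicClosure k((t))`. Block S moves them to any algebraically closed `k` of characteristic `p`:
a good coordinate at `P₀` (COO), one-point data with coefficients in a finitely generated subring `R` of `K` (APE, HEN, EIG, SPR), a homomorphism `R → k` which does not kill `tau` (NUL), SPC.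
The condition `tau ≠ 0` is intrinsic: it says that `F^(2g-2) ≠ 0` on `H¹(C, W₂ O)`, i.e. NOT `F^(2g-2) H ⊆ V² H` (TTE).

RESULT (FI3). For every prime `p`, every algebraically closed field `k` of characteristic `p` and every `g ≥ 3` there is a curve over `k` of genus `g`, `p`-rank 0, `a`-number 1 and
smallest Newton slope `≤ 1/g`.

Rules: file `Pool/Agent/<seat>/NPT/XXX.lean`, `import Pool.Agent.helper50.NPT.Spec3`, `namespace NPT`, `open AN` (and `open Pool.Agent.helper53.AU` where places occur), theorem line as in the lock note;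
a row may take any `XX_stmt` of project an or of the NPT specs as a hypothesis; auxiliary lemmas prefixed `XXX_`. Helper library: `helper50/NPT/Gen.lean` (`NPS.isK_of`, `NPS.ech`: one-point data over a RING from a family with leading terms `s^(-r)`).
-/

set_option autoImplicit false

namespace NPT

open scoped Classical
open AN
open Pool.Agent.helper53.AU

noncomputable section

/-- `F^n H ⊆ V^m H`, `H = W(LS R) / N0`, for one-point data -/
def LV (p : ℕ) [Fact p.Prime] {R : Type} [CommRing R] {g : ℕ} (γ : Fin g → ℕ) (a : ℕ → LS R) (n m : ℕ) : Prop :=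
  ∀ X : WittVector p (LS R), ∃ Y : WittVector p (LS R),
    (WittVector.frobenius)^[n] X - (WittVector.verschiebung)^[m] Y ∈ N0 p γ a

/-- `F^n H ⊆ V^m H` for `H = W(C - P - Q) / (W(C - P) + W(C - Q))` -/
def FV (p : ℕ) [Fact p.Prime] {k F : Type} [Field k] [Field F] [Algebra k F] (P Q : Place k F) (n m : ℕ) : Prop :=
  ∀ X ∈ Wc p (RegS {P, Q} : Set F), ∃ Y ∈ Wc p (RegS {P, Q} : Set F),
    (WittVector.frobenius)^[n] X - (WittVector.verschiebung)^[m] Y ∈
      Wc p (RegS {P} : Set F) ⊔ Wc p (RegS {Q} : Set F)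

/-- the properties of the curve which are moved -/
def Good (p : ℕ) [Fact p.Prime] (k F : Type) [Field k] [Field F] [Algebra k F] (g : ℕ) : Prop :=
  IsFF k F ∧ IsGenus k F g ∧ AN.PRankZero p k F ∧ AN.aNumber k F = 1 ∧
    ∀ P Q : Place k F, P ≠ Q → ¬ FV p P Q (2 * g - 2) 2

/-- TTE: `tau = 0` is intrinsic.
Proof: KEY for `X`: `F^(g-1) X = [κ f₀] + V [h] + V² (..)` modulo `N0`. Apply `F` (as in the proof of SLO, `helper50/NPT/SLO.lean`): `F^g X = V [Z₀] + V² (..)`, `Z₀ = C (κ^(p²)) z + h^p`, `z = P2 g0 o0`; `res (Z₀ w) = 0`, `res (Z₀ om2) = κ^(p²) tau`. So `F^(2g-2) X = V [Z₀^(p^(g-2))] + V² (..)`.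
It is in `V² W + N0` iff (WNO (5), (6), (7)) `Z₀^(p^(g-2)) ∈ A + PS`, i.e. `Fr^[g-2] (crd Z₀) = 0` (CRD). `crd Z₀ = Fr u` (LIN (1), `res (Z₀ w) = 0`), so iff `Fr^[g-1] u = 0`, iff `y ⬝ u = 0` (LIN (3) with `i = g - 1`, `v = 0`; if `y ⬝ u = 0` then `u = Fr u'` and `Fr^[g] u' = 0`).
`(y ⬝ u)^p = (res (ee u w))^p = res ((ee u)^p om2) = res (Z₀ om2) = κ^(p²) tau` (OMT, CRD (5) for `om2`). `κ ≠ 0` for some `X`: `w ≠ 0`, `X = [f]` with `res (f w) ≠ 0`. -/
def TTE_stmt : Prop := ∀ (p : ℕ) [Fact p.Prime] (Ω : Type) [Field Ω] [IsAlgClosed Ω] [CharP Ω p] (g : ℕ)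
  (γ : Fin g → ℕ) (a : ℕ → LS Ω), IsK γ a → 2 ≤ g → MN p (HW p γ a) g = 0 → g ≤ (HW p γ a).rank + 1 →
  ∀ T : Cert p γ a, T.x ≠ 0 → (LV p γ a (2 * g - 2) 2 ↔ T.tau = 0)

/-- FVC: as FPC (`helper44/NPT/FPC.lean`), with `V^m` instead of `p^m`. (FPB; `WittVector.map ι` commutes with Frobenius and Verschiebung (`WittVector.map_verschiebung`); `N0` is stable under `F` and `V` (WNO), `W(RegS {P, Q})` under `F` and `V` (WSR).) -/
def FVC_stmt : Prop := ∀ (p : ℕ) [Fact p.Prime] (k F : Type) [Field k] [IsAlgClosed k] [CharP k p] [Field F]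
  [Algebra k F], IsFF k F → ∀ (P Q : Place k F), P ≠ Q → ∀ ι : F →+* LS k, Lau P ι →
  ∀ (g : ℕ) (γ : Fin g → ℕ) (a : ℕ → LS k), IsK γ a → (∀ x : LS k, x ∈ AA γ a ↔ ∃ f ∈ Reg P, x = ι f) →
    ∀ n m : ℕ, FV p P Q n m ↔ LV p γ a n m

/-- FVD: as FPD (`helper66/NPT/FPD.lean`): independence of the two points. -/
def FVD_stmt : Prop := ∀ (p : ℕ) [Fact p.Prime] (k F : Type) [Field k] [IsAlgClosed k] [CharP k p] [Field F]
  [Algebra k F], IsFF k F → ∀ g : ℕ, IsGenus k F g → ∀ (P Q P' Q' : Place k F), P ≠ Q → P' ≠ Q' →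
    ∀ n m : ℕ, FV p P Q n m ↔ FV p P' Q' n m

/-- FN2: as FIN (`helper50/NPT/FIN.lean`), keeping only the geometric generic fibre, with TTE, FVC, FVD instead of SLO, FPC, FPD. -/
def FN2_stmt : Prop := ∀ (p : ℕ) [Fact p.Prime] (k : Type) [Field k] [IsAlgClosed k] [CharP k p]
    (F₀ : Type) [Field F₀] [Algebra k F₀] (g : ℕ), 3 ≤ g → IsFF k F₀ → IsGenus k F₀ g → AN.PRankZero p k F₀ →
    ∃ (K : Type) (_ : Field K) (_ : IsAlgClosed K) (_ : CharP K p) (F : Type) (_ : Field F) (_ : Algebra K F), Good p K F g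

/-- SLP: the slope. Proof: a place `P₁` (ZD), `ι` (FA), `γ, a` (FS), `MN = 0` (FG), `rank + 1 = g` (FH2). CEX for `R = K` (`ψ = id`): `T` with `T.x ≠ 0`. FVC for `P₁` and some `Q ≠ P₁` (if there is none the conclusion is empty: take `P₁ = P`, `Q` from the conclusion): not `LV (2g-2) 2`, so `tau ≠ 0` (TTE). SLO, FPC, FPD. -/
def SLP_stmt : Prop := ∀ (p : ℕ) [Fact p.Prime] (k F : Type) [Field k] [IsAlgClosed k] [CharP k p] [Field F]
  [Algebra k F] (g : ℕ), 3 ≤ g → Good p k F g → ∀ P Q : Place k F, P ≠ Q → ∀ n m : ℕ, FDiv p P Q n m → g * m ≤ n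

/-- COO: a coordinate with `x = s^(-n)`, `n` prime to `p`. (First half of the proof of FC, `Pool/Agent/helper16/AN/FC.lean`.) Proof: FA: `ι₀`. `x ∈ Reg P₀` of pole order `n > 0` prime to `p` (aQR5), FCR for `y = ι₀ x`: `σ ∈ GE 1`, `cf σ 1 ≠ 0`, `σ^n y = 1`; FC0 for `σ`: the automorphism `S` of `LS k`, `S s = σ`, so `S (s^(-n)) = y`; `ι = S⁻¹ ∘ ι₀`. -/
def COO_stmt : Prop := ∀ (p : ℕ) [Fact p.Prime] (k F : Type) [Field k] [IsAlgClosed k] [CharP k p] [Field F]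
  [Algebra k F], IsFF k F → ∀ P₀ : Place k F, ∃ (ι : F →+* LS k) (n : ℕ) (x : F), Lau P₀ ι ∧ 0 < n ∧ (n : k) ≠ 0 ∧
    x ∈ Reg P₀ ∧ ι x = mono (-(n : ℤ)) 1

/-- FS2: FS (one-point data) with TRUE gaps (`IsK` alone does not say that `γ` are the true gaps; helper17). Proof: copy of `Pool/Agent/helper19/AN/FS.lean`; FE0 gives `cf v (-r) = 0` for a gap `r` and `v ∈ V ∩ GE (-r)`; so the lowest term of `a r` is at a non-gap, where the coefficients are `0` except at `-r`. -/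
def FS2_stmt : Prop := ∀ (p : ℕ) [Fact p.Prime] (k F : Type) [Field k] [IsAlgClosed k] [CharP k p] [Field F]
  [Algebra k F], IsFF k F → ∀ g : ℕ, IsGenus k F g → ∀ (P₀ : Place k F) (ι : F →+* LS k), Lau P₀ ι →
    ∃ (γ : Fin g → ℕ) (a : ℕ → LS k), IsK γ a ∧ (∀ r : ℕ, ¬ Gp γ r → a r ∈ GE k (-(r : ℤ))) ∧
      ∀ x : LS k, x ∈ AA γ a ↔ ∃ f ∈ Reg P₀, x = ι f

/-- APE: the Apery basis `u i = a (μ i)` of `A` over `K[x]`, `x = s^(-n)`. Here `a n = s^(-n)` (if `s^(-n) ∈ A` then it is `a n` by KA: same coefficients at the non-gaps).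
Proof: `n` is a non-gap (KA: pole orders of elements of `A` are non-gaps). If `r` is a non-gap so is `r + n` (`a r * x ∈ A`). `μ i` = the smallest non-gap `≡ i` modulo `n` (all large numbers are non-gaps). Every `α ∈ A` is `∑_k c_k(x) u_k`: induction on the pole order `M`: if `cf α (-M) ≠ 0` then `M = μ k + n q`, subtract `cf α (-M) x^q u_k`; pole order 0: constants (KB), `μ 0 = 0`. Apply to `α = u_i u_j`. -/
def APE_stmt : Prop := ∀ (K : Type) [Field K] (g : ℕ) (γ : Fin g → ℕ) (a : ℕ → LS K), IsK γ a →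
  (∀ r : ℕ, ¬ Gp γ r → a r ∈ GE K (-(r : ℤ))) → ∀ n : ℕ, 0 < n →
  mono (-(n : ℤ)) (1 : K) ∈ AA γ a → ∃ (μ : Fin n → ℕ) (c : Fin n → Fin n → Fin n → Polynomial K),
    (∀ i, μ i % n = i) ∧ (∀ i, ¬ Gp γ (μ i)) ∧ (∀ r : ℕ, ¬ Gp γ r ↔ ∃ (i : Fin n) (q : ℕ), r = μ i + n * q) ∧
    ∀ i j, a (μ i) * a (μ j) = ∑ k, (c i j k).eval₂ LS.C (mono (-(n : ℤ)) (1 : K)) * a (μ k)

/-- HEN: coefficients of algebraic power series (PURE). `R` a subring of the field `K`.
Proof: show `cf y N ∈ R` by induction on `N`; let `N > e` (`N ≤ e`: hypothesis). `t = ∑_{0 ≤ m < N} mono m (cf y m)` has coefficients in `R` (the series with coefficients in `R` form a subring of `LS K`: `cf_mul_finset`), `z = y - t ∈ GE N`, `cf z N = cf y N`. Taylor: `P(t) = P(y - z) = P(y) - P'(y) z + k z²` with `k ∈ PS K` (induction on `P`, or `Polynomial.binomExpansion` over the subring `PS K`),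
`P(y) = 0`. Coefficient at `N + e < 2N`: `cf (P(t)) (N + e) = - cf (P'(y)) e * cf y N`. -/
def HEN_stmt : Prop := ∀ (K : Type) [Field K] (R : Subring K) (P : Polynomial (LS K)) (y : LS K) (e : ℕ),
  (∀ i m, cf (P.coeff i) m ∈ R) → (∀ i, P.coeff i ∈ PS K) → y ∈ PS K → P.eval y = 0 →
  P.derivative.eval y ∈ GE K e → cf (P.derivative.eval y) e ≠ 0 → (cf (P.derivative.eval y) e)⁻¹ ∈ R →
  (∀ m : ℤ, m ≤ e → cf y m ∈ R) → ∀ m : ℤ, cf y m ∈ R

/-- EIG: the Apery basis has its coefficients in a finitely generated ring.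
Proof: write `x = mono (-n) 1`, `u i = a (μ i)`, `q(x) = q.eval₂ LS.C x`. `n = 1`: `u 0 = a 0 = 1` (`μ 0 = 0` since `0` is a non-gap). `n ≥ 2`: `y = u 1`, pole order `μ 1 ≡ 1` modulo `n`; `M j k = c 1 j k`, so `y u_j = ∑_k (M j k)(x) u_k`.
ORDERS: (*) if `q_j ∈ K[X]`, `j < n`, are not all 0 then `∑_j q_j(x) y^j ≠ 0`, since the nonzero terms have orders `≡ -j` modulo `n`.
(1) `y`: `P = ∑ q_j(x) Y^j` = the characteristic polynomial of `M(x)` over `LS K` (= `M.charpoly` mapped by `eval₂`), monic of degree `n`; `P(y) = det (y - M(x)) = 0` because `(y - M(x)) u = 0`, `u 0 = 1 ≠ 0`. `P'(y) = ∑_j j q_j(x) y^(j-1) ≠ 0` by (*) (the last term is `n y^(n-1)`, `n ≠ 0` in `K`). For `L` large `P₁(Y) = ∑_j q_j(x) s^((n-j) L) Y^j` has coefficients in `PS K`, `y₁ = s^L y ∈ PS K`,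
`P₁(y₁) = s^(nL) P(y) = 0`, `P₁'(y₁) = s^((n-1)L) P'(y) ≠ 0`, of order `e`. HEN: `y₁`, so `y`, has coefficients in every `R` containing the (finitely many) coefficients of the `c i j k`, `cf y₁ m` for `m ≤ e`, and the inverse of the leading coefficient of `P₁'(y₁)`.
(2) `u_k`: `B j k = (M^j) 0 k`, `y^j = ∑_k (B j k)(x) u_k` (induction on `j`). `D = det B ≠ 0`: otherwise `λ B = 0` with `λ ≠ 0` over `K[X]` (`Matrix.exists_vecMul_eq_zero_iff`), `∑_j λ_j(x) y^j = 0` against (*). `D(x) u_k = ∑_j (adj B) k j (x) y^j`. HEN for the linear polynomial `s^A D(x) Y - s^A D(x) s^L u_k`, `A = n deg D`, `y = s^L u_k ∈ PS K`, `e = 0`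
(`s^A D(x)` has order 0 and leading coefficient that of `D`): put into `Σ` its inverse and `cf (s^L u_k) 0`. -/
def EIG_stmt : Prop := ∀ (K : Type) [Field K] (g : ℕ) (γ : Fin g → ℕ) (a : ℕ → LS K), IsK γ a →
  (∀ r : ℕ, ¬ Gp γ r → a r ∈ GE K (-(r : ℤ))) → ∀ n : ℕ, 0 < n → (n : K) ≠ 0 →
  ∀ (μ : Fin n → ℕ) (c : Fin n → Fin n → Fin n → Polynomial K), (∀ i, μ i % n = i) → (∀ i, ¬ Gp γ (μ i)) →
    (∀ r : ℕ, ¬ Gp γ r ↔ ∃ (i : Fin n) (q : ℕ), r = μ i + n * q) →
    (∀ i j, a (μ i) * a (μ j) = ∑ k, (c i j k).eval₂ LS.C (mono (-(n : ℤ)) (1 : K)) * a (μ k)) →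
    ∃ Sg : Finset K, ∀ R : Subring K, (∀ x ∈ Sg, x ∈ R) → ∀ i m, cf (a (μ i)) m ∈ R

/-- SPR: SPREADING OUT: one-point data over a finitely generated ring.
Proof: APE, EIG. `Sg` ⊇ that of EIG, the coefficients of the `c i j k`, `(n : K)⁻¹`. For a non-gap `r = μ i + n q` (unique `i`, `q`) `v r = x^q u_i ∈ AA γ a`, order exactly `-r`, leading coefficient 1; its coefficients are in `R`, so `v r = mp R.subtype (V r)`, `V r : LS R` (`ofFun`). `V 0 = 1`. `AA γ v = AA γ a` over `K` (both have leading terms at all non-gaps; induction on the pole order).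
NPS.isK_of (`Gen.lean`) for `R`, `V`, `W = OmA γ V`: (mul) `V r V r' = ∑_k (coefficients of c) x^(..) u_k`; (res) `res (V r * w) = 0` for `w ∈ OmA γ V`: map to `K` (`mp R.subtype` is injective, maps `OmA γ V` into `OmA γ a`), KB. (dd) `V 0 = 1`. (leading terms `n'` of `OmA γ V`, `n' ≤ -2` or `n' = γ i - 1`): let all `r ≥ N₀` be non-gaps; for `n' ≤ -(N₀ + n + 1)` take `V r * dd x`,
`r = - n' - n - 1`, leading coefficient `-n`, a unit of `R`. The other `n'` are finitely many: over `K` `om γ a n' = ∑ f_t * dd h_t` (finite), `f_t, h_t ∈ AA γ a = AA γ v` finite combinations of the `v r`; put their coefficients into `Sg`; then `w = ∑ f̃_t * dd h̃_t ∈ OmA γ V` with `mp w = om γ a n'`, so `w ∈ GE n'`, `cf w n' = 1`. So `IsK γ (NPS.ech γ V)`, and `mp (ech γ V r) = a r`: both are in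
`AA γ a` with the same coefficients at the non-gaps (KA). -/
def SPR_stmt : Prop := ∀ (K : Type) [Field K] (g : ℕ) (γ : Fin g → ℕ) (a : ℕ → LS K), IsK γ a →
  (∀ r : ℕ, ¬ Gp γ r → a r ∈ GE K (-(r : ℤ))) → ∀ n : ℕ, 0 < n → (n : K) ≠ 0 →
  mono (-(n : ℤ)) (1 : K) ∈ AA γ a →
    ∃ Sg : Finset K, ∀ R : Subring K, (∀ x ∈ Sg, x ∈ R) → ∃ A : ℕ → LS R, IsK γ A ∧
      ∀ r, ¬ Gp γ r → mp R.subtype (A r) = a r

/-- NUL: the Nullstellensatz (PURE). `R = Subring.closure Sg`, `K` of characteristic `p`.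
Proof: `R` is a `ZMod p`-algebra of finite type (generated by `Sg`), so is `R' = Localization.Away t` (`≠ 0`, `t ≠ 0` in a domain). A maximal ideal of `R'`: its residue field is of finite type over `ZMod p`, so finite over it (`finite_of_finite_type_of_isJacobsonRing`), so algebraic, and embeds into `k` (`IsAlgClosed.lift`; `k` is a `ZMod p`-algebra). `t` is a unit of `R'`, so its image is not 0. -/
def NUL_stmt : Prop := ∀ (p : ℕ) [Fact p.Prime] (K : Type) [Field K] [CharP K p] (Sg : Finset K)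
  (t : Subring.closure (Sg : Set K)), t ≠ 0 → ∀ (k : Type) [Field k] [IsAlgClosed k] [CharP k p],
    ∃ χ : Subring.closure (Sg : Set K) →+* k, χ t ≠ 0

/-- SPC: SPECIALISATION.
Proof: a place `P₀` of `F` (ZD), COO: `ι`, `n`, `x`; FS2 for `ι`: `γ`, `a`, `A = ι (Reg P₀)`, so `s^(-n) ∈ AA γ a`. `MN p (HW p γ a) g = 0` (FG), `rank = g - 1` (FH2). `Q ≠ P₀`: there is another place (a pole of a non-constant function in `Reg Q`..: aQZ3 or: `Reg P₀` contains `x`, and `x - c` has a zero, which is not `P₀`). FVC: not `LV (2g-2) 2`.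
SPR: `Sg`; `R = Subring.closure Sg`, `A' : ℕ → LS R`, `φ = R.subtype` injective; BC: `HW p γ a = (HW p γ A').map φ` (`HW` only uses the `a r`, `r` non-gap), so `MN p (HW p γ A') g = 0`. CEX over `R` (`ψ = φ`): `T : Cert p γ A'`, `T.x ≠ 0`. CMP: `T_K` over `K` with `x ≠ 0`, `tau = φ T.tau`. TTE over `K`: `T.tau ≠ 0`. EA2 for `HW p γ A'` and `φ`: `μ ∈ R`. NUL for `T.tau * μ`: `χ : R → k`.
Over `k`: `a_k = mp χ ∘ A'`, IsK (BC), `MN = 0`, `g ≤ rank + 1` (EA2), `T_k` with `tau = χ T.tau ≠ 0` (CMP), so `T_k.x ≠ 0` (`SLO_x` in `helper50/NPT/SLO.lean`), and not `LV (2g-2) 2` (TTE). `F' = EF γ a_k`: ZA, ZB, ZB0 (`P₁`), ZB1, FH1, `aNumber = g - rank = 1` (FH2, ZR), FVC for `P₁`, FVD. -/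
def SPC_stmt : Prop := ∀ (p : ℕ) [Fact p.Prime] (K F : Type) [Field K] [IsAlgClosed K] [CharP K p] [Field F]
  [Algebra K F] (g : ℕ), 3 ≤ g → Good p K F g → ∀ (k : Type) [Field k] [IsAlgClosed k] [CharP k p],
    ∃ (F' : Type) (_ : Field F') (_ : Algebra k F'), Good p k F' g

end

end NPT
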