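import Pool.Agent.helper50.NPT.FIN
import Pool.Agent.helper50.NPT.SLO
import Pool.Agent.helper50.NPT.Spec3

namespace NPT

open scoped Classical
open AN
open Pool.Agent.helper53.AU

noncomputable section

theorem FN2 (hZD : ZD_stmt) (hFA : FA_stmt) (hFS : FS_stmt) (hFT : FT_stmt) (hFG : FG_stmt)
    (hFAM : FAM_stmt) (hBC : BC_stmt) (hZA : ZA_stmt)
    (hZB : ZB_stmt) (hZB0 : ZB0_stmt) (hZB1 : ZB1_stmt) (hFH1 : FH1_stmt) (hFH2 : FH2_stmt)
    (hZR : ZR_stmt) (hCMP : CMP_stmt) (hKB : KB_stmt) (hOMT : OMT_stmt) (hTTE : TTE_stmt) (hFVC : FVC_stmt)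
    (hFVD : FVD_stmt) :
    FN2_stmt := by
  intro p _ k _ _ _ F₀ _ _ g hg hFF hgen hpr
  obtain ⟨P₀⟩ := hZD k F₀ hFF
  obtain ⟨ι, hι⟩ := hFA k F₀ hFF P₀
  obtain ⟨γ, a, hK, hreg⟩ := hFS p k F₀ hFF g hgen P₀ ι hι
  obtain ⟨ν, τ, hT⟩ := hFT p k F₀ hFF g (by omega) hgen P₀ ι hι γ a hK hreg
  have hnil := hFG p k F₀ hFF P₀ ι hι g γ a hK hreg hpr
  obtain ⟨A, hA, hred, hMN, hrk, C, hC⟩ := hFAM p k (3 * g - 3) g γ a ν τ (by omega) hK hT hnil
  have hgp : 0 < g := by omega
  -- the generic fibre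
  have hB1 := hBC (PowerSeries k) (LaurentSeries k) (algebraMap (PowerSeries k) (LaurentSeries k)) g 0
    γ A (fun _ => 0) (fun _ => 0) hA
  have hKK := hB1.1
  have hHW1 := hB1.2.2.2.1 p
  have hB2 := hBC (LaurentSeries k) (AlgebraicClosure (LaurentSeries k))
    (algebraMap (LaurentSeries k) (AlgebraicClosure (LaurentSeries k))) g 0 γ _ (fun _ => 0) (fun _ => 0) hKK
  have hKL := hB2.1
  have hHW2 := hB2.2.2.2.1 p
  have hinj1 : Function.Injective (algebraMap (PowerSeries k) (LaurentSeries k)) :=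
    IsFractionRing.injective (PowerSeries k) (LaurentSeries k)
  have hinj2 : Function.Injective (algebraMap (LaurentSeries k) (AlgebraicClosure (LaurentSeries k))) :=
    (algebraMap (LaurentSeries k) (AlgebraicClosure (LaurentSeries k))).injective
  have hcK : CharP (LaurentSeries k) p :=
    charP_of_injective_ringHom (f := (algebraMap (PowerSeries k) (LaurentSeries k)).comp
      (PowerSeries.C (R := k))) (hinj1.comp (PowerSeries.C_injective)) p
  have hcL : CharP (AlgebraicClosure (LaurentSeries k)) p :=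
    charP_of_injective_ringHom
      (f := algebraMap (LaurentSeries k) (AlgebraicClosure (LaurentSeries k))) hinj2 p
  obtain ⟨P₁, hP₁⟩ := hZB0 (AlgebraicClosure (LaurentSeries k)) g γ _ hKL
  have hreg' := hZB1 p (AlgebraicClosure (LaurentSeries k)) g γ _ hKL P₁ hP₁
  have hFF' := hZA (AlgebraicClosure (LaurentSeries k)) g γ _ hKL
  have hgen' := hZB p (AlgebraicClosure (LaurentSeries k)) g γ _ hKL
  have hmnL : MN p (HW p γ (fun r => mp (algebraMap (LaurentSeries k)
      (AlgebraicClosure (LaurentSeries k))) (mp (algebraMap (PowerSeries k) (LaurentSeries k)) (A r)))) g = 0 := by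
    rw [hHW2, hHW1, FIN_MN, FIN_MN, hMN, Matrix.map_zero _ (map_zero _), Matrix.map_zero _ (map_zero _)]
  have h3 := hrk (AlgebraicClosure (LaurentSeries k))
      ((algebraMap (LaurentSeries k) (AlgebraicClosure (LaurentSeries k))).comp
        (algebraMap (PowerSeries k) (LaurentSeries k))) (hinj2.comp hinj1)
  have h4 : (HW p γ A).map ((algebraMap (LaurentSeries k) (AlgebraicClosure (LaurentSeries k))).comp
        (algebraMap (PowerSeries k) (LaurentSeries k))) = HW p γ (fun r => mp (algebraMap (LaurentSeries k)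
      (AlgebraicClosure (LaurentSeries k))) (mp (algebraMap (PowerSeries k) (LaurentSeries k)) (A r))) := by
      rw [hHW2, hHW1]
      rfl
  rw [h4] at h3
  obtain ⟨C1, hC1, -⟩ := hCMP p _ _ (algebraMap (PowerSeries k) (LaurentSeries k)) g γ A hA C
  obtain ⟨C2, hC2, -⟩ := hCMP p _ _ (algebraMap (LaurentSeries k) (AlgebraicClosure (LaurentSeries k)))
    g γ _ hKK C1
  have htau : C2.tau ≠ 0 := by
    rw [hC2, hC1]
    intro h0
    exact hC ((map_eq_zero_iff _ hinj1).mp ((map_eq_zero_iff _ hinj2).mp h0))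
  refine ⟨AlgebraicClosure (LaurentSeries k), inferInstance, inferInstance, hcL, EF γ (fun r => mp (algebraMap (LaurentSeries k)
      (AlgebraicClosure (LaurentSeries k))) (mp (algebraMap (PowerSeries k) (LaurentSeries k)) (A r))),
    inferInstance, inferInstance, hFF', hgen', ?_, ?_, ?_⟩
  · exact hFH1 p _ _ hFF' P₁ _ hP₁ g γ _ hKL hreg' hmnL
  · have h1 := hFH2 p _ _ hFF' P₁ _ hP₁ g γ _ hKL hreg'
    have h2 := hZR p _ g _ hgp hmnL
    omega
  · intro P Q hPQ hn
    have hex : ∃ Q' : Place (AlgebraicClosure (LaurentSeries k)) (EF γ (fun r => mp (algebraMap (LaurentSeries k)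
      (AlgebraicClosure (LaurentSeries k))) (mp (algebraMap (PowerSeries k) (LaurentSeries k)) (A r)))), P₁ ≠ Q' := by
      by_contra hcon
      push Not at hcon
      exact hPQ ((hcon P).symm.trans (hcon Q))
    obtain ⟨Q', hQ'⟩ := hex
    have h5 := (hFVD p _ _ hFF' g hgen' P Q P₁ Q' hPQ hQ' (2 * g - 2) 2).mp hn
    have h6 := (hFVC p _ _ hFF' P₁ Q' hQ' _ hP₁ g γ _ hKL hreg' (2 * g - 2) 2).mp h5
    exact htau ((hTTE p _ g γ _ hKL (by omega) hmnL h3 C2 (SLO_x hKB hOMT p hKL C2 htau)).mp h6)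

end

end NPT
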