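import Pool.Agent.helper50.NPT.SLO
import Pool.Agent.helper50.NPT.Spec3
import Pool.Agent.helper14.NPT.LIN

namespace NPT

open scoped Classical
open AN

noncomputable section

theorem TTE (hKB : KB_stmt) (hCE : CE_stmt) (hOMT : OMT_stmt) (hLIN : LIN_stmt)
    (hCRD : CRD_stmt) (hWTA : WTA_stmt) (hWNO : WNO_stmt) (hKEY : KEY_stmt) : TTE_stmt := by
  intro p hp Ω _ _ _ g γ a hK hg hMN hrk T hx
  have hchar := KEY_char p Ω
  obtain ⟨-, -, -, -, -, -, kb_AO, kb_resO⟩ := hKB Ω g γ a hK
  obtain ⟨cadd, czero, cee, cpow, cres⟩ := hCRD p Ω g γ a hK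
  obtain ⟨wO, wPS, -, -, omO, omPS, -, ann, hpw, hpom, hzw⟩ := hOMT p Ω g γ a hK T
  obtain ⟨hHx, hy, hHy, hHc⟩ := KEY_facts hCE hOMT hCRD p Ω g γ a hK T hx
  obtain ⟨l1, -, l3, -⟩ := hLIN p Ω g (HW p γ a) (by omega) hMN hrk T.x _ hx hHx hy hHy
  obtain ⟨n1, n2, n3, n4, n5, n6, n7⟩ := hWNO p Ω g γ a hK
  have hw0 := KEY_w0 hCE p hK T hx
  -- the main computation
  have main : ∀ X : WittVector p (LS Ω), ∃ (κ : Ω) (Z0 : LS Ω) (r : WittVector p (LS Ω)) (u : Fin g → Ω),
      (WittVector.frobenius)^[g] X - WittVector.verschiebung (WittVector.teichmuller p Z0) -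
        WittVector.verschiebung (WittVector.verschiebung r) ∈ N0 p γ a ∧
      crd γ a Z0 = Fr p (HW p γ a) u ∧ (res (ee γ u * T.w)) ^ p = (κ ^ p) ^ p * T.tau ∧
      (res (X.coeff 0 * T.w) ≠ 0 → κ ≠ 0) := by
    intro X
    obtain ⟨κ, h, r, hr, hh, hκ⟩ := hKEY p Ω g γ a hK (by omega) hMN hrk T hx X
    set z := P2 p T.g0 T.o0 with hz
    set Z0 : LS Ω := LS.C ((κ ^ p) ^ p) * z + h ^ p with hZ0
    have hF := n2 _ hr
    rw [map_sub, map_sub, map_sub, KEY_Ft, KEY_FV, KEY_FV, KEY_Ft, KEY_FV] at hF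
    have hgg : WittVector.frobenius ((WittVector.frobenius)^[g - 1] X) = (WittVector.frobenius)^[g] X := by
      rw [← Function.iterate_succ_apply' (WittVector.frobenius : WittVector p (LS Ω) → _)]
      congr 2
      omega
    rw [hgg] at hF
    let Q := KQ p γ a
    have q1 : Q ((WittVector.frobenius)^[g] X) = Q (WittVector.teichmuller p ((LS.C κ * ee γ T.x) ^ p)) +
        Q (WittVector.verschiebung (WittVector.teichmuller p (h ^ p))) := by
      have h1 := KQ_N0 hF
      rw [map_sub, map_sub, map_sub, KQ_VV, sub_zero, sub_sub, sub_eq_zero] at h1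
      exact h1
    have q2 : Q (WittVector.teichmuller p (ee γ T.x ^ p)) =
        Q (WittVector.verschiebung (WittVector.teichmuller p z)) := by
      rw [T.e1]
      have := KQ_add (p := p) hWTA γ a T.g0 T.o0
      rw [KQ_t hWNO hK (Or.inl T.hg0), KQ_t hWNO hK (Or.inr T.ho0), zero_add, zero_add] at this
      exact this
    have q3 : Q (WittVector.teichmuller p ((LS.C κ * ee γ T.x) ^ p)) =
        Q (WittVector.verschiebung (WittVector.teichmuller p (LS.C ((κ ^ p) ^ p) * z))) := by
      show KQ p γ a _ = KQ p γ a _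
      have e : (LS.C κ * ee γ T.x) ^ p = LS.C (κ ^ p) * ee γ T.x ^ p := by
        rw [mul_pow, map_pow]
      rw [e, map_mul (WittVector.teichmuller p), KQ_C (p := p) hWNO hK (κ ^ p) q2, KEY_tV p, ← map_mul]
      rw [← map_pow (LS.C (R := Ω))]
    have q4 : Q ((WittVector.frobenius)^[g] X) =
        Q (WittVector.verschiebung (WittVector.teichmuller p Z0)) := by
      have k := KQ_Vadd (p := p) hWTA γ a (LS.C ((κ ^ p) ^ p) * z) (h ^ p)
      rw [q1, q3]
      exact k.symm
    have q5 : Q ((WittVector.frobenius)^[g] X - WittVector.verschiebung (WittVector.teichmuller p Z0)) = 0 := by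
      show KQ p γ a _ = 0
      rw [map_sub]
      exact sub_eq_zero.mpr q4
    obtain ⟨r1, hr1⟩ := KQ_eq_zero q5
    -- coordinates
    have hy0 : res (Z0 * T.w) = 0 := by
      rw [hZ0, add_mul, res_add, mul_assoc, C_mul, res_smul, hzw, mul_zero, hpw, add_zero]
    rw [cres _ wO wPS] at hy0
    obtain ⟨u, hu⟩ := l1 _ hy0
    have hd : crd γ a (Z0 - ee γ u ^ p) = 0 := by
      have h1 := cadd (Z0 - ee γ u ^ p) (ee γ u ^ p)
      rw [sub_add_cancel, cpow, cee, ← hu] at h1
      exact add_eq_right.mp h1.symm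
    obtain ⟨α, hα, o, ho, hαo⟩ := (czero _).mp hd
    have h5 : res (Z0 * T.om2) = (κ ^ p) ^ p * T.tau := by
      rw [hZ0, add_mul, res_add, mul_assoc, C_mul, res_smul, hpom, hh]
      show (κ ^ p) ^ p * T.tau0 + (κ ^ p * T.rho) ^ p = (κ ^ p) ^ p * (T.tau0 + T.rho ^ p)
      ring
    have h6 : res (Z0 * T.om2) = (res (ee γ u * T.w)) ^ p := by
      have e : Z0 = ee γ u ^ p + (α + o) := by rw [← hαo]; ring
      rw [e, add_mul, add_mul, res_add, res_add, hpom, kb_resO _ (kb_AO _ hα _ omO),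
        res_PS (PS_mul ho omPS), add_zero, add_zero]
    exact ⟨κ, Z0, r1, u, hr1, hu, by rw [← h6, h5], hκ⟩
  -- iterate
  have iter : ∀ (X : WittVector p (LS Ω)) (Z0 : LS Ω) (r : WittVector p (LS Ω)),
      (WittVector.frobenius)^[g] X - WittVector.verschiebung (WittVector.teichmuller p Z0) -
        WittVector.verschiebung (WittVector.verschiebung r) ∈ N0 p γ a → ∀ i : ℕ, ∃ r' : WittVector p (LS Ω),
      (WittVector.frobenius)^[g + i] X - WittVector.verschiebung (WittVector.teichmuller p (Z0 ^ p ^ i)) -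
        WittVector.verschiebung (WittVector.verschiebung r') ∈ N0 p γ a := by
    intro X Z0 r hr i
    induction i with
    | zero => exact ⟨r, by rw [pow_zero, pow_one, Nat.add_zero]; exact hr⟩
    | succ i ih =>
      obtain ⟨r', hr'⟩ := ih
      refine ⟨WittVector.frobenius r', ?_⟩
      have h1 := n2 _ hr'
      rw [map_sub, map_sub, KEY_FV, KEY_FV, KEY_FV, KEY_Ft, ← pow_mul, ← pow_succ,
        ← Function.iterate_succ_apply' (WittVector.frobenius : WittVector p (LS Ω) → _)] at h1
      exact h1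
  have hcp : ∀ (i : ℕ) (f : LS Ω), crd γ a (f ^ p ^ i) = (Fr p (HW p γ a))^[i] (crd γ a f) := by
    intro i
    induction i with
    | zero => intro f; rw [pow_zero, pow_one, Function.iterate_zero, id_eq]
    | succ i ih =>
      intro f
      rw [pow_succ, pow_mul, cpow, ih, Function.iterate_succ_apply']
  have hgi : g + (g - 2) = 2 * g - 2 := by omega
  have hFrg : ∀ u : Fin g → Ω, (Fr p (HW p γ a))^[g] u = 0 := by
    intro u
    rw [LIN_it_MN, hMN, Matrix.zero_mulVec]
  have hFr0 : Fr p (HW p γ a) 0 = 0 := by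
    have h1 := LIN_smul (p := p) (HW p γ a) (0 : Ω) (0 : Fin g → Ω)
    rw [smul_zero, zero_pow hp.out.ne_zero, zero_smul] at h1
    exact h1
  have hFrg0 : (Fr p (HW p γ a))^[g - 1 + 1] 0 = 0 := by
    rw [show g - 1 + 1 = g by omega]
    exact hFrg 0
  have hsucc : ∀ u : Fin g → Ω, (Fr p (HW p γ a))^[g - 2] (Fr p (HW p γ a) u) = (Fr p (HW p γ a))^[g - 1] u := by
    intro u
    rw [← Function.iterate_succ_apply (Fr p (HW p γ a))]
    congr 2
    omega
  constructor
  · intro hLV
    -- a good X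
    have hX : ∃ X : WittVector p (LS Ω), res (X.coeff 0 * T.w) ≠ 0 := by
      by_contra hcon
      push Not at hcon
      apply hw0
      apply KEY_zero
      intro f
      have := hcon (WittVector.teichmuller p f)
      rwa [WittVector.teichmuller_coeff_zero] at this
    obtain ⟨X, hX⟩ := hX
    obtain ⟨κ, Z0, r, u, h1, h2, h3, h4⟩ := main X
    obtain ⟨r', hr'⟩ := iter X Z0 r h1 (g - 2)
    rw [hgi] at hr'
    obtain ⟨Y, hY⟩ := hLV X
    have hY' : (WittVector.frobenius)^[2 * g - 2] X -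
        WittVector.verschiebung (WittVector.verschiebung Y) ∈ N0 p γ a := hY
    have h5 := AddSubgroup.sub_mem _ hY' hr'
    have e : (WittVector.frobenius)^[2 * g - 2] X - WittVector.verschiebung (WittVector.verschiebung Y) -
        ((WittVector.frobenius)^[2 * g - 2] X - WittVector.verschiebung (WittVector.teichmuller p (Z0 ^ p ^ (g - 2))) -
          WittVector.verschiebung (WittVector.verschiebung r')) =
        WittVector.verschiebung (WittVector.teichmuller p (Z0 ^ p ^ (g - 2)) +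
          WittVector.verschiebung (r' - Y)) := by
      rw [map_add, map_sub, map_sub]
      ring
    rw [e] at h5
    obtain ⟨α, hα, o, ho, hαo⟩ := n6 _ (n5 _ h5)
    rw [WittVector.add_coeff_zero, WittVector.teichmuller_coeff_zero, WittVector.verschiebung_coeff_zero, add_zero] at hαo
    have h6 : crd γ a (Z0 ^ p ^ (g - 2)) = 0 := (czero _).mpr ⟨α, hα, o, ho, hαo⟩
    rw [hcp, h2, hsucc] at h6
    have h7 : res (ee γ u * T.w) = 0 := by
      by_contra h8
      rw [cres _ wO wPS, cee] at h8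
      exact l3 u h8 (g - 1) (by omega) 0 (by rw [h6, hFrg0])
    rw [h7, zero_pow hp.out.ne_zero] at h3
    rcases mul_eq_zero.mp h3.symm with h8 | h8
    · exact absurd ((pow_eq_zero_iff hp.out.ne_zero).mp ((pow_eq_zero_iff hp.out.ne_zero).mp h8)) (h4 hX)
    · exact h8
  · intro ht X
    obtain ⟨κ, Z0, r, u, h1, h2, h3, h4⟩ := main X
    obtain ⟨r', hr'⟩ := iter X Z0 r h1 (g - 2)
    rw [hgi] at hr'
    rw [ht, mul_zero] at h3
    have h5 := (pow_eq_zero_iff hp.out.ne_zero).mp h3
    rw [cres _ wO wPS, cee] at h5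
    obtain ⟨u', hu'⟩ := l1 _ h5
    have h6 : crd γ a (Z0 ^ p ^ (g - 2)) = 0 := by
      rw [hcp, h2, hsucc, hu', ← Function.iterate_succ_apply (Fr p (HW p γ a)),
        show (g - 1).succ = g by omega, hFrg]
    obtain ⟨α, hα, o, ho, hαo⟩ := (czero _).mp h6
    obtain ⟨r2, hr2⟩ := n7 (WittVector.teichmuller p (Z0 ^ p ^ (g - 2)))
      ⟨α, hα, o, ho, by rw [WittVector.teichmuller_coeff_zero]; exact hαo⟩
    have h7 := AddSubgroup.add_mem _ hr' (n3 _ hr2)
    refine ⟨r' + r2, ?_⟩
    have e : (WittVector.frobenius)^[2 * g - 2] X - WittVector.verschiebung (WittVector.teichmuller p (Z0 ^ p ^ (g - 2))) -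
          WittVector.verschiebung (WittVector.verschiebung r') +
        WittVector.verschiebung (WittVector.teichmuller p (Z0 ^ p ^ (g - 2)) - WittVector.verschiebung r2) =
        (WittVector.frobenius)^[2 * g - 2] X - (WittVector.verschiebung)^[2] (r' + r2) := by
      show _ = _ - WittVector.verschiebung (WittVector.verschiebung (r' + r2))
      rw [map_sub, map_add, map_add]
      ring
    rw [e] at h7
    exact h7

end

end NPT
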