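import Pool.Agent.helper50.NPT.Transfer
import Pool.Agent.helper50.NPT.Spec3
import Pool.Agent.helper48.EXI.Spec2

/-!
# The final statement over every algebraically closed field, with the definitions of `Def.lean`
-/

set_option autoImplicit false

namespace Pool.Agent.helper50.NP

open Pool.Agent.helper84.GC

noncomputable section

theorem exists_start (hXOD : EXI.XOD_stmt)
    (hP2 : ∀ (K : Type) [Field K] [IsAlgClosed K] [CharP K 2] (g : ℕ),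
      ∃ (γ : Fin g → ℕ) (a : ℕ → AN.LS K), AN.IsK γ a ∧ AN.MN 2 (AN.HW 2 γ a) g = 0)
    (hZA : AN.ZA_stmt) (hZB : AN.ZB_stmt) (hZB0 : AN.ZB0_stmt) (hZB1 : AN.ZB1_stmt) (hFH1 : AN.FH1_stmt)
    (p : ℕ) [hp : Fact p.Prime] (g : ℕ) (hg : 1 ≤ g) :
    ∃ (k : Type) (_ : Field k) (_ : IsAlgClosed k) (_ : CharP k p) (F : Type) (_ : Field F) (_ : Algebra k F),
      Pool.Agent.helper53.AU.IsFF k F ∧ Pool.Agent.helper53.AU.IsGenus k F g ∧ AN.PRankZero p k F := by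
  by_cases h2 : p = 2
  · subst h2
    obtain ⟨γ, a, hK, hMN⟩ := hP2 (AlgebraicClosure (ZMod 2)) g
    obtain ⟨P₀, hP₀⟩ := hZB0 _ g γ a hK
    have hFF := hZA _ g γ a hK
    exact ⟨AlgebraicClosure (ZMod 2), inferInstance, inferInstance, inferInstance, AN.EF γ a, inferInstance,
      inferInstance, hFF, hZB 2 _ g γ a hK, hFH1 2 _ (AN.EF γ a) hFF P₀ _ hP₀ g γ a hK
        (hZB1 2 _ g γ a hK P₀ hP₀) hMN⟩
  · exact hXOD p g h2 hg

theorem main3 (hXOD : EXI.XOD_stmt)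
    (hP2 : ∀ (K : Type) [Field K] [IsAlgClosed K] [CharP K 2] (g : ℕ),
      ∃ (γ : Fin g → ℕ) (a : ℕ → AN.LS K), AN.IsK γ a ∧ AN.MN 2 (AN.HW 2 γ a) g = 0)
    (hZA : AN.ZA_stmt) (hZB : AN.ZB_stmt) (hZB0 : AN.ZB0_stmt) (hZB1 : AN.ZB1_stmt) (hFH1 : AN.FH1_stmt)
    (hFN2 : NPT.FN2_stmt) (hSPC : NPT.SPC_stmt) (hSLP : NPT.SLP_stmt)
    (p : ℕ) [Fact p.Prime] (k : Type) [Field k] [IsAlgClosed k] [CharP k p] (g : ℕ) (hg : 3 ≤ g) :
    ∃ (F : Type) (_ : Field F) (_ : Algebra k F), IsFF k F ∧ IsGenus k F g ∧ PRankZero p k F ∧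
      aNumber k F = 1 ∧ SlopeLE p k F g := by
  obtain ⟨k₀, i1, i2, i3, F₀, i4, i5, h1, h2, h3⟩ := exists_start hXOD hP2 hZA hZB hZB0 hZB1 hFH1 p g (by omega)
  obtain ⟨K, j1, j2, j3, F₁, j4, j5, hgood⟩ := hFN2 p k₀ F₀ g hg h1 h2 h3
  obtain ⟨F, l1, l2, hF⟩ := hSPC p K F₁ g hg hgood k
  refine ⟨F, l1, l2, hF.1, (isGenus_iff g).mpr hF.2.1, (pRankZero_iff p).mpr hF.2.2.1, ?_, ?_⟩
  · rw [aNumber_eq]
    exact hF.2.2.2.1
  · exact (slopeLE_iff p g).mpr (hSLP p k F g hg hF)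

end

end Pool.Agent.helper50.NP
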