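import Pool.Agent.helper50.NPT.All
import Pool.Agent.helper50.NPT.TTE
import Pool.Agent.helper50.NPT.FN2
import Pool.Agent.helper47.NPT.FVC
import Pool.Agent.helper15.NPT.FVD
import Pool.Agent.helper66.NPT.SLP
import Pool.Agent.helper21.NPT.HEN
import Pool.Agent.helper61.NPT.NULr
import Pool.Agent.helper48.EXI.All
import Pool.Agent.helper50.EXI.P2
import Pool.Agent.helper50.NPT.Transfer3

/-!
# Project NPT, block S: assembly (all rows except the specialisation of one-point data)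
-/

set_option autoImplicit false

namespace NPT

open AN

theorem n_TTE : TTE_stmt := TTE a_KB a_CE n_OMT n_LIN n_CRD n_WTA n_WNO n_KEY
theorem n_FVC : FVC_stmt := FVC n_WSR n_WNO n_FPB
theorem n_FVD : FVD_stmt := FVD n_FVC a_FA a_FS
theorem n_FN2 : FN2_stmt :=
  FN2 a_ZD a_FA a_FS a_FT a_FG n_FAM a_BC a_ZA a_ZB a_ZB0 a_ZB1 a_FH1 a_FH2 a_ZR n_CMP a_KB n_OMT n_TTE
    n_FVC n_FVD
theorem n_SLP : SLP_stmt := SLP a_ZD a_FA a_FS a_FG a_FH2 n_CEX n_FVC n_TTE n_SLO n_FPC n_FPD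
theorem n_HEN : HEN_stmt := HEN
theorem n_NUL : NUL_stmt := NUL

theorem x_XOD : EXI.XOD_stmt :=
  EXI.XOD EXI.x_DIS EXI.x_SQR EXI.x_KHY EXI.x_XNI a_ZA a_ZB a_ZB0 a_ZB1 a_FH1

theorem x_P2 (K : Type) [Field K] [IsAlgClosed K] [CharP K 2] (g : ℕ) :
    ∃ (γ : Fin g → ℕ) (a : ℕ → LS K), IsK γ a ∧ MN 2 (HW 2 γ a) g = 0 :=
  EXI.P2 a_FCR n_CRD a_PF a_KB K g

end NPT
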