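import Pool.Agent.helper50.NPT.KEY0

namespace NPT

open scoped Classical
open AN

noncomputable section

theorem KEY_w0 (hCE : CE_stmt) (p : ℕ) [hp : Fact p.Prime] {K : Type} [Field K] [CharP K p] {g : ℕ}
    {γ : Fin g → ℕ} {a : ℕ → LS K} (hK : IsK γ a) (T : Cert p γ a) (hx : T.x ≠ 0) : T.w ≠ 0 := by
  have hchar := KEY_char p K
  have hexp : ExpChar (LS K) p := ExpChar.prime hp.out
  intro h0
  have h1 : ∑ j, LS.C (frV p T.x j) * (mono (-(γ j : ℤ)) (1 : K)) ^ p = T.g0 + T.o0 := by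
    rw [← T.e1]
    unfold ee
    rw [sum_pow_char]
    refine Finset.sum_congr rfl fun j _ => ?_
    have : mono (-(γ j : ℤ)) (T.x j) = LS.C (T.x j) * mono (-(γ j : ℤ)) (1 : K) := by
      rw [C_mul, smul_mono, mul_one]
    rw [this, mul_pow, ← map_pow]
    rfl
  have h2 := hCE p K g γ a hK (frV p T.x) T.g0 T.hg0 T.o0 T.ho0 h1 h0
  apply hx
  funext j
  have h3 := congrFun h2 j
  exact (pow_eq_zero_iff hp.out.ne_zero).mp h3

theorem KEY_zero {R : Type} [CommRing R] {w : LS R} (h : ∀ f : LS R, res (f * w) = 0) : w = 0 := by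
  apply LS.ext
  intro n
  have h1 := h (mono (-1 - n) (1 : R))
  unfold res at h1
  rw [cf_mono_mul, one_mul] at h1
  rw [cf_zero]
  have h3 : (-1 : ℤ) - (-1 - n) = n := by ring
  rw [h3] at h1
  exact h1

theorem KEY_eePow (p : ℕ) [hp : Fact p.Prime] {R : Type} [CommRing R] [CharP R p] {g : ℕ}
    (γ : Fin g → ℕ) (u : Fin g → R) : ee γ u ^ p = eP p γ (frV p u) := by
  have hchar := KEY_char p R
  have hexp : ExpChar (LS R) p := ExpChar.prime hp.out
  unfold ee eP
  rw [sum_pow_char]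
  refine Finset.sum_congr rfl fun j _ => ?_
  have : mono (-(γ j : ℤ)) (u j) = LS.C (u j) * mono (-(γ j : ℤ)) (1 : R) := by
    rw [C_mul, smul_mono, mul_one]
  rw [this, mul_pow, ← map_pow]
  rfl

theorem KEY_ePlin (p : ℕ) {R : Type} [CommRing R] {g : ℕ} (γ : Fin g → ℕ) (κ l : R) (c d : Fin g → R) :
    eP p γ (κ • c + l • d) = LS.C κ * eP p γ c + LS.C l * eP p γ d := by
  unfold eP
  rw [Finset.mul_sum, Finset.mul_sum, ← Finset.sum_add_distrib]
  refine Finset.sum_congr rfl fun j _ => ?_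
  rw [Pi.add_apply, Pi.smul_apply, Pi.smul_apply, smul_eq_mul, smul_eq_mul, map_add, map_mul, map_mul]
  ring

/-- the facts on `H`, `x`, `y`, `c'` -/
theorem KEY_facts (hCE : CE_stmt) (hOMT : OMT_stmt) (hCRD : CRD_stmt) (p : ℕ) [hp : Fact p.Prime]
    (Ω : Type) [Field Ω] [IsAlgClosed Ω] [CharP Ω p] (g : ℕ) (γ : Fin g → ℕ) (a : ℕ → LS Ω) (hK : IsK γ a)
    (T : Cert p γ a) (hx : T.x ≠ 0) :
    (HW p γ a).mulVec (frV p T.x) = 0 ∧
    (fun i => res (mono (-(γ i : ℤ)) (1 : Ω) * T.w)) ≠ 0 ∧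
    (HW p γ a).transpose.mulVec (fun i => res (mono (-(γ i : ℤ)) (1 : Ω) * T.w)) = 0 ∧
    (HW p γ a).mulVec T.c' = T.x := by
  obtain ⟨cadd, czero, cee, cpow, cres⟩ := hCRD p Ω g γ a hK
  obtain ⟨wO, wPS, -, -, -, -, -, -, hpw, -, -⟩ := hOMT p Ω g γ a hK T
  have hcadd3 : ∀ f α o : LS Ω, α ∈ AA γ a → o ∈ PS Ω → crd γ a (f + α + o) = crd γ a f := by
    intro f α o hα ho
    have h : crd γ a (α + o) = 0 := (czero _).mpr ⟨α, hα, o, ho, rfl⟩
    rw [add_assoc, cadd, h, add_zero]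
  refine ⟨?_, ?_, ?_, ?_⟩
  · have h1 : crd γ a (ee γ T.x ^ p) = 0 := (czero _).mpr ⟨_, T.hg0, _, T.ho0, T.e1⟩
    rw [cpow, cee] at h1
    exact h1
  · intro h0
    apply KEY_w0 hCE p hK T hx
    apply KEY_zero
    intro f
    rw [cres _ wO wPS f, h0, zero_dotProduct]
  · funext j
    have h1 := hpw (ee γ (Pi.single j (1 : Ω)))
    rw [cres _ wO wPS, cpow, cee] at h1
    have h2 : frV p (Pi.single j (1 : Ω)) = (Pi.single j (1 : Ω) : Fin g → Ω) := by
      funext i
      show (Pi.single j (1 : Ω) : Fin g → Ω) i ^ p = _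
      by_cases hij : i = j
      · subst hij; rw [Pi.single_eq_same, one_pow]
      · rw [Pi.single_eq_of_ne hij, zero_pow hp.out.ne_zero]
    unfold Fr at h1
    rw [h2, Matrix.mulVec_single_one] at h1
    rw [Pi.zero_apply, ← h1]
    simp only [Matrix.mulVec, dotProduct, Matrix.transpose_apply, Matrix.col_apply]
    exact Finset.sum_congr rfl fun i _ => mul_comm _ _
  · -- `c' = d^(p)`
    have hroot : ∀ j, ∃ d : Ω, d ^ p = T.c' j := fun j =>
      IsAlgClosed.exists_pow_nat_eq _ hp.out.pos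
    choose d hd using hroot
    have h1 : frV p d = T.c' := funext hd
    have h2 : crd γ a (eP p γ T.c') = (HW p γ a).mulVec T.c' := by
      rw [← h1, ← KEY_eePow, cpow, cee]
      rfl
    rw [← h2, ← cee T.x, T.e3, hcadd3 _ _ _ T.ha1 T.ho1]

theorem KEY (hCE : CE_stmt) (hPPM : PPM_stmt) (hOMT : OMT_stmt) (hLIN : LIN_stmt) (hCRD : CRD_stmt)
    (hWTA : WTA_stmt) (hWNO : WNO_stmt) : KEY_stmt := by
  intro p hp Ω _ _ _ g γ a hK hg hMN hrk T hx X
  have hchar := KEY_char p Ω
  obtain ⟨cadd, czero, cee, cpow, cres⟩ := hCRD p Ω g γ a hK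
  obtain ⟨wO, wPS, -, -, -, -, -, ann, hpw, -, hzw⟩ := hOMT p Ω g γ a hK T
  obtain ⟨hHx, hy, hHy, hHc⟩ := KEY_facts hCE hOMT hCRD p Ω g γ a hK T hx
  obtain ⟨-, l2, l3, l4⟩ := hLIN p Ω g (HW p γ a) (by omega) hMN hrk T.x _ hx hHx hy hHy
  set H := HW p γ a with hH
  set f₀ := ee γ T.x with hf₀
  set z := P2 p T.g0 T.o0 with hz
  -- the scalar
  obtain ⟨κ, hκ⟩ := l2 (crd γ a (X.coeff 0))
  set t := (WittVector.frobenius)^[g - 2] X with ht
  have hFt : (WittVector.frobenius)^[g - 1] X = WittVector.frobenius t := by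
    rw [ht, ← Function.iterate_succ_apply' (WittVector.frobenius : WittVector p (LS Ω) → _)]
    congr 2
    omega
  set u := crd γ a (t.coeff 0) with hu
  have hFu : Fr p H u = κ • T.x := by
    rw [← hκ, hu, ht, KEY_iter p cpow, ← Function.iterate_succ_apply' (Fr p H)]
    congr 2
    omega
  -- `t = [ee u] + V s` modulo `N0`
  obtain ⟨s, hs⟩ : ∃ s, t - WittVector.teichmuller p (ee γ u) - WittVector.verschiebung s ∈ N0 p γ a := by
    apply (hWNO p Ω g γ a hK).2.2.2.2.2.2
    apply (czero _).mp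
    have h1 : (t - WittVector.teichmuller p (ee γ u)).coeff 0 = t.coeff 0 - ee γ u := by
      have h2 : (t - WittVector.teichmuller p (ee γ u) + WittVector.teichmuller p (ee γ u)).coeff 0 =
          (t - WittVector.teichmuller p (ee γ u)).coeff 0 + (WittVector.teichmuller p (ee γ u)).coeff 0 :=
        WittVector.add_coeff_zero _ _
      rw [sub_add_cancel, WittVector.teichmuller_coeff_zero] at h2
      rw [h2]; ring
    rw [h1]
    have h3 := cadd (t.coeff 0 - ee γ u) (ee γ u)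
    rw [sub_add_cancel, cee, ← hu] at h3
    exact add_eq_right.mp h3.symm
  have hFs := (hWNO p Ω g γ a hK).2.1 _ hs
  rw [map_sub, map_sub, KEY_Ft, KEY_FV] at hFs
  -- `u^(p) = κ c' + l x^(p)`
  obtain ⟨l, hl⟩ := l4 (frV p u - κ • T.c') (by
    rw [Matrix.mulVec_sub, Matrix.mulVec_smul, hHc]
    exact sub_eq_zero.mpr hFu)
  have hup : frV p u = κ • T.c' + l • frV p T.x := by rw [← hl]; abel
  have heu : ee γ u ^ p = LS.C κ * eP p γ T.c' + LS.C l * f₀ ^ p := by
    rw [KEY_eePow, hup, KEY_ePlin, ← KEY_eePow]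
  set φ := eP p γ T.c' with hφ
  have hdφ : dd φ = 0 := by
    rw [hφ]
    unfold eP
    rw [map_sum]
    refine Finset.sum_eq_zero fun j _ => ?_
    rw [dd_mul, dd_C, dd_pow_char p _ p (dvd_refl p), zero_mul, mul_zero, add_zero]
  set r₁ := P2 p (LS.C κ * φ) (LS.C l * f₀ ^ p) with hr₁
  have hdr₁ : dd r₁ = 0 := by
    have h := hPPM.2.2 p (LS Ω) (dd : LS Ω →ₗ[Ω] LS Ω).toAddMonoidHom (fun u v => dd_mul u v)
      (LS.C κ * φ) (LS.C l * f₀ ^ p)
    have e1 : dd (LS.C κ * φ) = 0 := by rw [dd_mul, dd_C, hdφ, zero_mul, mul_zero, add_zero]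
    have e2 : dd (LS.C l * f₀ ^ p) = 0 := by
      rw [dd_mul, dd_C, dd_pow_char p _ p (dvd_refl p), zero_mul, mul_zero, add_zero]
    have h' : dd r₁ = (LS.C κ * φ + LS.C l * f₀ ^ p) ^ (p - 1) * (dd (LS.C κ * φ) + dd (LS.C l * f₀ ^ p)) -
        (LS.C κ * φ) ^ (p - 1) * dd (LS.C κ * φ) - (LS.C l * f₀ ^ p) ^ (p - 1) * dd (LS.C l * f₀ ^ p) := h
    rw [h', e1, e2]
    ring
  set P := P3 p f₀ (-T.a1) (-T.o1) with hP
  set h : LS Ω := LS.C (κ ^ p) * P + r₁ + LS.C (l ^ p) * z + s.coeff 0 ^ p with hh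
  -- classes
  let Q := KQ p γ a
  have q1 : Q (WittVector.frobenius t) = Q (WittVector.teichmuller p (ee γ u ^ p)) +
      Q (WittVector.verschiebung (WittVector.teichmuller p (s.coeff 0 ^ p))) := by
    have h1 : Q (WittVector.frobenius t - WittVector.teichmuller p (ee γ u ^ p) -
        WittVector.verschiebung (WittVector.frobenius s)) = 0 := KQ_N0 hFs
    rw [map_sub, map_sub] at h1
    have h2 : Q (WittVector.verschiebung (WittVector.frobenius s)) =
        Q (WittVector.verschiebung (WittVector.teichmuller p (s.coeff 0 ^ p))) := by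
      have := KQ_V hWTA γ a (WittVector.frobenius s)
      rw [WittVector.coeff_frobenius_charP] at this
      exact this
    rw [← h2]
    rw [sub_sub, sub_eq_zero] at h1
    exact h1
  have q2 : Q (WittVector.teichmuller p (f₀ ^ p)) =
      Q (WittVector.verschiebung (WittVector.teichmuller p z)) := by
    rw [T.e1]
    have := KQ_add (p := p) hWTA γ a T.g0 T.o0
    rw [KQ_t hWNO hK (Or.inl T.hg0), KQ_t hWNO hK (Or.inr T.ho0), zero_add, zero_add] at this
    exact this
  have q3 : Q (WittVector.teichmuller p (LS.C l * f₀ ^ p)) =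
      Q (WittVector.verschiebung (WittVector.teichmuller p (LS.C (l ^ p) * z))) := by
    show KQ p γ a _ = KQ p γ a _
    rw [map_mul (WittVector.teichmuller p), KQ_C (p := p) hWNO hK l q2, KEY_tV p, ← map_mul, map_pow]
  have q4 : Q (WittVector.teichmuller p φ) = Q (WittVector.teichmuller p f₀) +
      Q (WittVector.verschiebung (WittVector.teichmuller p P)) := by
    have e : φ = f₀ + -T.a1 + -T.o1 := by rw [hf₀, T.e3]; ring
    rw [e]
    have k1 := KQ_add (p := p) hWTA γ a (f₀ + -T.a1) (-T.o1)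
    have k2 := KQ_add (p := p) hWTA γ a f₀ (-T.a1)
    have k3 : P = P2 p f₀ (-T.a1) + P2 p (f₀ + -T.a1) (-T.o1) := rfl
    have k4 := KQ_Vadd (p := p) hWTA γ a (P2 p f₀ (-T.a1)) (P2 p (f₀ + -T.a1) (-T.o1))
    rw [KQ_t hWNO hK (Or.inr (Submodule.neg_mem _ T.ho1)), add_zero] at k1
    rw [KQ_t hWNO hK (Or.inl (Submodule.neg_mem _ T.ha1)), add_zero] at k2
    show KQ p γ a _ = KQ p γ a _ + KQ p γ a _
    rw [k1, k2, k3, k4, add_assoc]
  have q5 : Q (WittVector.teichmuller p (LS.C κ * φ)) = Q (WittVector.teichmuller p (LS.C κ * f₀)) +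
      Q (WittVector.verschiebung (WittVector.teichmuller p (LS.C (κ ^ p) * P))) := by
    have k1 : KQ p γ a (WittVector.teichmuller p φ) =
        KQ p γ a (WittVector.teichmuller p f₀ + WittVector.verschiebung (WittVector.teichmuller p P)) := by
      rw [map_add]; exact q4
    show KQ p γ a _ = KQ p γ a _ + KQ p γ a _
    rw [map_mul (WittVector.teichmuller p), KQ_C hWNO hK κ k1, mul_add, map_add, KEY_tV p, ← map_mul, ← map_mul,
      map_pow]
  have q6 : Q (WittVector.frobenius t) = Q (WittVector.teichmuller p (LS.C κ * f₀)) +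
      Q (WittVector.verschiebung (WittVector.teichmuller p h)) := by
    have k1 := KQ_add (p := p) hWTA γ a (LS.C κ * φ) (LS.C l * f₀ ^ p)
    have k2 : Q (WittVector.verschiebung (WittVector.teichmuller p h)) =
        Q (WittVector.verschiebung (WittVector.teichmuller p (LS.C (κ ^ p) * P))) +
        Q (WittVector.verschiebung (WittVector.teichmuller p r₁)) +
        Q (WittVector.verschiebung (WittVector.teichmuller p (LS.C (l ^ p) * z))) +
        Q (WittVector.verschiebung (WittVector.teichmuller p (s.coeff 0 ^ p))) := by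
      show KQ p γ a _ = KQ p γ a _ + KQ p γ a _ + KQ p γ a _ + KQ p γ a _
      rw [hh, KQ_Vadd hWTA, KQ_Vadd hWTA, KQ_Vadd hWTA]
    rw [q1, heu, k2]
    rw [← hr₁] at k1
    have k3 : Q (WittVector.teichmuller p (LS.C κ * φ + LS.C l * f₀ ^ p)) =
      Q (WittVector.teichmuller p (LS.C κ * φ)) + Q (WittVector.teichmuller p (LS.C l * f₀ ^ p)) +
        Q (WittVector.verschiebung (WittVector.teichmuller p r₁)) := k1
    rw [k3, q5, q3]
    abel
  obtain ⟨r, hr⟩ : ∃ r, (WittVector.frobenius t - WittVector.teichmuller p (LS.C κ * f₀) -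
      WittVector.verschiebung (WittVector.teichmuller p h)) -
        WittVector.verschiebung (WittVector.verschiebung r) ∈ N0 p γ a := by
    apply KQ_eq_zero
    rw [map_sub, map_sub]
    show Q _ - Q _ - Q _ = 0
    rw [q6]
    abel
  refine ⟨κ, h, r, ?_, ?_, ?_⟩
  · rw [hFt]
    exact hr
  · have e1 : res (LS.C (κ ^ p) * P * T.w) = κ ^ p * T.rho := by
      rw [mul_assoc, C_mul, res_smul]
      rfl
    have e2 : res (r₁ * T.w) = 0 := ann _ hdr₁
    have e3 : res (LS.C (l ^ p) * z * T.w) = 0 := by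
      rw [mul_assoc, C_mul, res_smul, hzw, mul_zero]
    have e4 : res (s.coeff 0 ^ p * T.w) = 0 := hpw _
    rw [hh, add_mul, add_mul, add_mul, res_add, res_add, res_add, e1, e2, e3, e4]
    ring
  · intro hX hκ0
    rw [cres _ wO wPS] at hX
    have h5 := l3 _ hX (g - 1) (by omega) 0
    apply h5
    rw [hκ, hκ0, zero_smul]
    have h6 : ∀ i : ℕ, (Fr p H)^[i + 1] (0 : Fin g → Ω) = 0 := by
      intro i
      have h7 : Fr p H (0 : Fin g → Ω) = 0 := by
        unfold Fr
        have : frV p (0 : Fin g → Ω) = 0 := by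
          funext i
          show (0 : Ω) ^ p = 0
          exact zero_pow hp.out.ne_zero
        rw [this, Matrix.mulVec_zero]
      induction i with
      | zero => exact h7
      | succ i ih => rw [Function.iterate_succ_apply', ih, h7]
    exact (h6 (g - 1)).symm

end

end NPT
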