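import Pool.Agent.helper50.NPT.Spec1

/-! Project NPT: common lemmas for the rows KEY and SLO: Witt vectors modulo `N0 + V²`. -/

namespace NPT

open scoped Classical
open AN

noncomputable section

theorem KEY_char (p : ℕ) (R : Type) [CommRing R] [CharP R p] : CharP (LS R) p := by
  refine charP_of_injective_ringHom (f := (LS.C : R →+* LS R)) ?_ p
  exact HahnSeries.C_injective

theorem KEY_Ft (p : ℕ) [hp : Fact p.Prime] {B : Type} [CommRing B] [CharP B p] (x : B) :
    WittVector.frobenius (WittVector.teichmuller p x) = WittVector.teichmuller p (x ^ p) := by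
  ext n
  rw [WittVector.coeff_frobenius_charP]
  cases n with
  | zero => rw [WittVector.teichmuller_coeff_zero, WittVector.teichmuller_coeff_zero]
  | succ n =>
    rw [WittVector.teichmuller_coeff_pos p _ _ (Nat.succ_pos n),
      WittVector.teichmuller_coeff_pos p _ _ (Nat.succ_pos n), zero_pow hp.out.ne_zero]

theorem KEY_tV (p : ℕ) [hp : Fact p.Prime] {B : Type} [CommRing B] [CharP B p] (c : B) (X : WittVector p B) :
    WittVector.teichmuller p c * WittVector.verschiebung X =
      WittVector.verschiebung (WittVector.teichmuller p (c ^ p) * X) := by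
  rw [← KEY_Ft, mul_comm (WittVector.frobenius _) X, WittVector.verschiebung_mul_frobenius, mul_comm]

theorem KEY_FV (p : ℕ) [hp : Fact p.Prime] {B : Type} [CommRing B] [CharP B p] (X : WittVector p B) :
    WittVector.frobenius (WittVector.verschiebung X) = WittVector.verschiebung (WittVector.frobenius X) := by
  rw [WittVector.frobenius_verschiebung, WittVector.verschiebung_frobenius]

theorem KEY_iter (p : ℕ) [hp : Fact p.Prime] {R : Type} [CommRing R] [CharP R p] {g : ℕ}
    {γ : Fin g → ℕ} {a : ℕ → LS R} (hF : ∀ f : LS R, crd γ a (f ^ p) = Fr p (HW p γ a) (crd γ a f))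
    (X : WittVector p (LS R)) (i : ℕ) :
    crd γ a (((WittVector.frobenius)^[i] X).coeff 0) = (Fr p (HW p γ a))^[i] (crd γ a (X.coeff 0)) := by
  have hc := KEY_char p R
  induction i with
  | zero => rfl
  | succ i ih =>
    rw [Function.iterate_succ_apply', Function.iterate_succ_apply', WittVector.coeff_frobenius_charP, hF, ih]

variable (p : ℕ) [hp : Fact p.Prime] {R : Type} [CommRing R] {g : ℕ}

/-- `N0 + V²` -/
def KN2 (γ : Fin g → ℕ) (a : ℕ → LS R) : AddSubgroup (WittVector p (LS R)) :=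
  N0 p γ a ⊔ ((WittVector.verschiebung (p := p) (R := LS R)).comp WittVector.verschiebung).range

/-- the class modulo `N0 + V²` -/
def KQ (γ : Fin g → ℕ) (a : ℕ → LS R) : WittVector p (LS R) →+ WittVector p (LS R) ⧸ KN2 p γ a :=
  QuotientAddGroup.mk' (KN2 p γ a)

variable {p}

theorem KQ_mem {γ : Fin g → ℕ} {a : ℕ → LS R} {X : WittVector p (LS R)} (h : X ∈ KN2 p γ a) :
    KQ p γ a X = 0 := (QuotientAddGroup.eq_zero_iff X).mpr h

theorem KQ_eq_zero {γ : Fin g → ℕ} {a : ℕ → LS R} {X : WittVector p (LS R)} (h : KQ p γ a X = 0) :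
    ∃ r, X - WittVector.verschiebung (WittVector.verschiebung r) ∈ N0 p γ a := by
  have h1 : X ∈ KN2 p γ a := (QuotientAddGroup.eq_zero_iff X).mp h
  obtain ⟨y, hy, z, ⟨r, rfl⟩, hz⟩ := AddSubgroup.mem_sup.mp h1
  refine ⟨r, ?_⟩
  rw [← hz]
  simpa using hy

theorem KQ_N0 {γ : Fin g → ℕ} {a : ℕ → LS R} {X : WittVector p (LS R)} (h : X ∈ N0 p γ a) :
    KQ p γ a X = 0 := KQ_mem (AddSubgroup.mem_sup_left h)

theorem KQ_VV {γ : Fin g → ℕ} {a : ℕ → LS R} (r : WittVector p (LS R)) :
    KQ p γ a (WittVector.verschiebung (WittVector.verschiebung r)) = 0 :=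
  KQ_mem (AddSubgroup.mem_sup_right ⟨r, rfl⟩)

/-- (k1) -/
theorem KQ_add (hW : WTA_stmt) (γ : Fin g → ℕ) (a : ℕ → LS R) (x y : LS R) :
    KQ p γ a (WittVector.teichmuller p (x + y)) = KQ p γ a (WittVector.teichmuller p x) +
      KQ p γ a (WittVector.teichmuller p y) +
        KQ p γ a (WittVector.verschiebung (WittVector.teichmuller p (P2 p x y))) := by
  obtain ⟨r, hr⟩ := (hW p (LS R)).1 x y
  rw [hr, map_add, map_add, map_add, KQ_VV, add_zero]

/-- (k2) -/
theorem KQ_Vadd (hW : WTA_stmt) (γ : Fin g → ℕ) (a : ℕ → LS R) (x y : LS R) :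
    KQ p γ a (WittVector.verschiebung (WittVector.teichmuller p (x + y))) =
      KQ p γ a (WittVector.verschiebung (WittVector.teichmuller p x)) +
        KQ p γ a (WittVector.verschiebung (WittVector.teichmuller p y)) := by
  obtain ⟨r, hr⟩ := (hW p (LS R)).1 x y
  rw [hr, map_add, map_add, map_add, map_add, map_add, map_add, KQ_VV, KQ_VV, add_zero, add_zero]

/-- (k3) -/
theorem KQ_V (hW : WTA_stmt) (γ : Fin g → ℕ) (a : ℕ → LS R) (X : WittVector p (LS R)) :
    KQ p γ a (WittVector.verschiebung X) =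
      KQ p γ a (WittVector.verschiebung (WittVector.teichmuller p (X.coeff 0))) := by
  obtain ⟨r, -, hr⟩ := (hW p (LS R)).2.1 X
  conv_lhs => rw [hr]
  rw [map_add, map_add, KQ_VV, add_zero]

/-- (k4) -/
theorem KQ_t [CharP R p] (hN : WNO_stmt) {γ : Fin g → ℕ} {a : ℕ → LS R} (hK : IsK γ a) {x : LS R}
    (hx : x ∈ AA γ a ∨ x ∈ PS R) : KQ p γ a (WittVector.teichmuller p x) = 0 :=
  KQ_N0 ((hN p R g γ a hK).1 x hx)

theorem KQ_Vt [CharP R p] (hN : WNO_stmt) {γ : Fin g → ℕ} {a : ℕ → LS R} (hK : IsK γ a) {x : LS R}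
    (hx : x ∈ AA γ a ∨ x ∈ PS R) :
    KQ p γ a (WittVector.verschiebung (WittVector.teichmuller p x)) = 0 :=
  KQ_N0 ((hN p R g γ a hK).2.2.1 _ ((hN p R g γ a hK).1 x hx))

/-- (k5) -/
theorem KQ_C [CharP R p] (hN : WNO_stmt) {γ : Fin g → ℕ} {a : ℕ → LS R} (hK : IsK γ a) (c : R)
    {X Y : WittVector p (LS R)} (h : KQ p γ a X = KQ p γ a Y) :
    KQ p γ a (WittVector.teichmuller p (LS.C c) * X) = KQ p γ a (WittVector.teichmuller p (LS.C c) * Y) := by
  have hc := KEY_char p R
  have h1 : KQ p γ a (X - Y) = 0 := by rw [map_sub, h, sub_self]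
  obtain ⟨r, hr⟩ := KQ_eq_zero h1
  have h2 := (hN p R g γ a hK).2.2.2.1 c _ hr
  have h3 : KQ p γ a (WittVector.teichmuller p (LS.C c) * X - WittVector.teichmuller p (LS.C c) * Y) = 0 := by
    have e : WittVector.teichmuller p (LS.C c) * X - WittVector.teichmuller p (LS.C c) * Y =
        WittVector.teichmuller p (LS.C c) * (X - Y - WittVector.verschiebung (WittVector.verschiebung r)) +
          WittVector.verschiebung (WittVector.verschiebung
            (WittVector.teichmuller p ((LS.C c ^ p) ^ p) * r)) := by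
      rw [← KEY_tV, ← KEY_tV]
      ring
    rw [e, map_add, KQ_N0 h2, KQ_VV, add_zero]
  rw [map_sub, sub_eq_zero] at h3
  exact h3

end

end NPT
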